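import Pool.Agent.Work.MP_8d2cba_co_helper98.DEG1

/-! MP_8d2cba_co, block DEG (helper98). -/

set_option autoImplicit false
set_option linter.unusedSectionVars false

namespace Pool.OM.helper98

open Finset Pool.OM

section real

/-- lower ratio -/
theorem lo_ratio (Vc N a X Y Z : ℝ) (m : ℕ) (hV : 0 < Vc) (hN : 0 < N) (hNV : N ≤ Vc ^ m)
    (ha : 0 ≤ a) (h : X ≤ a + Y) (hZ : Z * Vc ^ m ≤ X) :
    Z - Y / Vc ^ m ≤ a / N := by
  have hVm : 0 < Vc ^ m := pow_pos hV m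
  have h1 : a / Vc ^ m ≤ a / N := div_le_div_of_nonneg_left ha hN hNV
  have h2 : Z ≤ X / Vc ^ m := by rw [le_div_iff₀ hVm]; exact hZ
  have h3 : X / Vc ^ m ≤ (a + Y) / Vc ^ m := div_le_div_of_nonneg_right h hVm.le
  rw [add_div] at h3
  linarith

/-- upper ratio -/
theorem up_ratio (Vc N a Z θ : ℝ) (m : ℕ) (hV : 0 < Vc) (hθ : θ < 1)
    (hN : Vc ^ m * (1 - θ) ≤ N) (hZ : 0 ≤ Z) (h : a ≤ Z * Vc ^ m) :
    a / N ≤ Z * (1 / (1 - θ)) := by
  have hVm : 0 < Vc ^ m := pow_pos hV m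
  have h1 : 0 < 1 - θ := by linarith
  have hN0 : 0 < N := lt_of_lt_of_le (mul_pos hVm h1) hN
  rw [div_le_iff₀ hN0]
  have h2 : Z * Vc ^ m = Z * (1 / (1 - θ)) * (Vc ^ m * (1 - θ)) := by field_simp
  calc a ≤ Z * Vc ^ m := h
    _ = Z * (1 / (1 - θ)) * (Vc ^ m * (1 - θ)) := h2
    _ ≤ Z * (1 / (1 - θ)) * N := mul_le_mul_of_nonneg_left hN (by positivity)

theorem pow_m1 (Vc : ℝ) (m : ℕ) (hm : 1 ≤ m) : Vc ^ m = Vc * Vc ^ (m - 1) := by
  rw [← pow_succ']; congr 1; omega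

theorem pow_m2 (Vc : ℝ) (m : ℕ) (hm : 2 ≤ m) : Vc ^ m = Vc ^ 2 * Vc ^ (m - 2) := by
  rw [← pow_add]; congr 1; omega

end real

section sums
variable {G : Type} [Group G] [Fintype G] [DecidableEq G]

theorem sum_inj_le (I : Finset (Idx G)) (φ : Idx G → G) (h : Set.InjOn φ (I : Set (Idx G)))
    (f : G → ℕ) : ∑ i ∈ I, f (φ i) ≤ ∑ g, f g := by
  rw [← sum_image h]
  exact sum_le_sum_of_subset (subset_univ _)

theorem sum_rt : ∑ g : G, rt g = Fintype.card G := by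
  rw [← card_univ, card_eq_sum_card_fiberwise (f := fun x : G => x * x) (t := univ)
    (fun x _ => mem_univ _)]
  rfl

theorem sum_ind_compl (C : Finset G) :
    ∑ g : G, (if g ∉ C then 1 else 0) = (univ \ C).card := by
  rw [← card_filter]
  congr 1
  ext g; simp

end sums

theorem sum_expand1 {α : Type} (I : Finset α) (m r r' b b' : α → ℝ) (Vc c1 c2 Kp : ℝ) :
    ∑ i ∈ I, (m i / Vc - (c1 * (Kp + 25 * (r i + r' i)) + c2 * (b i + b' i))) =
      (∑ i ∈ I, m i) / Vc - (c1 * ((I.card : ℝ) * Kp + 25 * (∑ i ∈ I, r i + ∑ i ∈ I, r' i)) +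
        c2 * (∑ i ∈ I, b i + ∑ i ∈ I, b' i)) := by
  rw [sum_sub_distrib, sum_add_distrib, ← sum_div, ← mul_sum, ← mul_sum, sum_add_distrib,
    ← mul_sum, sum_add_distrib, sum_add_distrib, sum_const, nsmul_eq_mul]

theorem sum_expand2 {α : Type} (I : Finset α) (Z r r' : α → ℝ) (c1 Kp : ℝ) :
    ∑ i ∈ I, (Z i - c1 * (Kp + 25 * (r i + r' i))) =
      (∑ i ∈ I, Z i) - c1 * ((I.card : ℝ) * Kp + 25 * (∑ i ∈ I, r i + ∑ i ∈ I, r' i)) := by
  rw [sum_sub_distrib, ← mul_sum, sum_add_distrib, ← mul_sum, sum_add_distrib, sum_const,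
    nsmul_eq_mul]

theorem stmt_DEG : Stmt_DEG := by
  intro δ hδ
  set ε : ℝ := min δ 1 / 10000 with hε
  have hε0 : 0 < ε := by positivity
  have hεδ : 10000 * ε ≤ δ := by
    rw [hε]; have := min_le_left δ 1; linarith
  have hε1 : 10000 * ε ≤ 1 := by
    rw [hε]; have := min_le_right δ 1; linarith
  refine ⟨ε, ⌈1 / ε⌉₊, hε0, ?_⟩
  intro G _ _ _ I V C hN NHh
  set n : ℝ := (Fintype.card G : ℝ) with hn
  have hn1 : 1 ≤ ε * n := by
    have h1 : 1 / ε ≤ n := (Nat.le_ceil _).trans (by rw [hn]; exact_mod_cast hN)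
    rw [div_le_iff₀ hε0] at h1
    linarith
  have hn0 : 0 < n := by
    rw [hn]; exact_mod_cast Fintype.card_pos
  have hl : ∀ i ∈ I, 2 ≤ i.2.2 - 1 ∧ i.2.2 - 1 ≤ 4 := fun i hi => by
    rcases NHh.len i hi with h | h | h <;> omega
  set Vc : ℝ := (V.card : ℝ) with hVc
  set K : ℝ := ((univ \ C).card : ℝ) with hK
  have hK0 : 0 ≤ K := by rw [hK]; positivity
  have hKε : K ≤ ε * n := NHh.full
  have hIn : (I.card : ℝ) ≤ n := by rw [hn]; exact_mod_cast card_I_le I NHh.src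
  have hIV : 2 * (I.card : ℝ) ≤ Vc := by
    have : 2 * I.card ≤ V.card := by
      rw [← NHh.cardV, mul_comm, ← smul_eq_mul, ← sum_const]
      exact sum_le_sum fun i hi => (hl i hi).1
    rw [hVc]; exact_mod_cast this
  have hI6 : n ≤ 6 * (I.card : ℝ) := by rw [hn]; exact_mod_cast NHh.big
  have hnV : n ≤ 3 * Vc := by linarith
  have hV0 : 0 < Vc := by linarith
  have hVn : Vc ≤ n := by rw [hVc, hn]; exact_mod_cast card_le_univ V
  have hsV : ∑ i ∈ I, ((i.2.2 - 1 : ℕ) : ℝ) = Vc := by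
    rw [hVc, ← NHh.cardV]; push_cast; rfl
  have hsC : Vc + (I.card : ℝ) = (C.card : ℝ) := by
    rw [← NHh.cardC, Nat.cast_sum]
    have : ∑ i ∈ I, (i.2.2 : ℝ) = ∑ i ∈ I, (((i.2.2 - 1 : ℕ) : ℝ) + 1) := by
      apply sum_congr rfl
      intro i hi
      have := (hl i hi).1
      have h2 : i.2.2 = (i.2.2 - 1) + 1 := by omega
      nth_rewrite 1 [h2]
      push_cast; rfl
    rw [this, sum_add_distrib, hsV, sum_const, nsmul_eq_mul, mul_one]
  have hCK : (C.card : ℝ) + K = n := by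
    rw [hK, hn, card_sdiff_of_subset (subset_univ C), card_univ,
      Nat.cast_sub (card_le_univ C)]
    ring
  have hCI : Vc + (I.card : ℝ) ≤ n := by linarith
  -- inverse bounds
  have hi1 : 1 / Vc ≤ 3 / n := by
    rw [div_le_div_iff₀ hV0 hn0]; linarith
  have hi2 : 1 / Vc ^ 2 ≤ 9 / n ^ 2 := by
    rw [div_le_div_iff₀ (by positivity) (by positivity)]; nlinarith
  set θ : ℝ := (41 + 5 * K) / Vc with hθ
  have h41 : 41 + 5 * K ≤ 46 * (ε * n) := by linarith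
  have hθ1 : θ ≤ 138 * ε := by
    rw [hθ, div_eq_mul_one_div]
    calc (41 + 5 * K) * (1 / Vc) ≤ 46 * (ε * n) * (3 / n) :=
          mul_le_mul h41 hi1 (by positivity) (by positivity)
      _ = 138 * ε := by field_simp; norm_num
  have hθ0 : 0 ≤ θ := by rw [hθ]; positivity
  have hθlt : θ < 1 := by linarith
  -- number of paths
  have hNlo : ∀ i ∈ I, Vc ^ (i.2.2 - 1) * (1 - θ) ≤ ((pathsF V C i).card : ℝ) := by
    intro i hi
    have h1 := deg1 i.1 i.2.1 V C (m := i.2.2 - 1) (hl i hi).1 (hl i hi).2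
    rw [← pathsF_eq] at h1
    have h2 : Vc ^ (i.2.2 - 1) ≤ ((pathsF V C i).card : ℝ) +
        (41 + 5 * K) * Vc ^ (i.2.2 - 1 - 1) := by
      rw [hVc, hK]; exact_mod_cast h1
    have h3 : Vc ^ (i.2.2 - 1) * θ = (41 + 5 * K) * Vc ^ (i.2.2 - 1 - 1) := by
      rw [pow_m1 Vc (i.2.2 - 1) (by have := (hl i hi).1; omega), hθ]
      field_simp
    rw [mul_sub, mul_one, h3]
    linarith
  have hNup : ∀ i ∈ I, ((pathsF V C i).card : ℝ) ≤ Vc ^ (i.2.2 - 1) := by
    intro i hi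
    have h1 := card_le_card (paths_sub V C i)
    rw [card_AV] at h1
    rw [hVc]; exact_mod_cast h1
  have hN0 : ∀ i ∈ I, 0 < ((pathsF V C i).card : ℝ) := by
    intro i hi
    exact lt_of_lt_of_le (mul_pos (pow_pos hV0 _) (by linarith)) (hNlo i hi)
  have hup : 1 / (1 - θ) * (1 + 10 * ε) ≤ 1 + δ := by
    rw [one_div, inv_mul_le_iff₀ (by linarith)]
    nlinarith
  refine ⟨?_, ?_, ?_⟩
  · intro i hi
    have h1 := hNlo i hi
    have h2 : 0 < Vc ^ (i.2.2 - 1) := pow_pos hV0 _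
    nlinarith
  · intro v hv
    rw [abs_le]
    constructor
    · -- lower bound
      have hper : ∀ i ∈ I, ((i.2.2 - 1 : ℕ) : ℝ) / Vc -
          (4 / Vc ^ 2 * ((41 + 5 * K) + 25 * ((rt (i.1⁻¹ * v) : ℝ) + (rt (i.2.1 * v⁻¹) : ℝ))) +
          20 / Vc * ((if i.1⁻¹ * v ∉ C then (1 : ℝ) else 0) +
            (if v⁻¹ * i.2.1 ∉ C then (1 : ℝ) else 0))) ≤
          (((pathsF V C i).filter fun x => ∃ j, x j = v).card : ℝ) / (pathsF V C i).card := by
        intro i hi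
        have h1 := degv_sum i.1 i.2.1 V C (m := i.2.2 - 1) (hl i hi).1 (hl i hi).2 v hv
        rw [← pathsF_eq] at h1
        have h2 : ((i.2.2 - 1 : ℕ) : ℝ) * Vc ^ (i.2.2 - 1 - 1) ≤
            (((pathsF V C i).filter fun x => ∃ j, x j = v).card : ℝ) +
            4 * (Vc ^ (i.2.2 - 1 - 2) * (41 + 5 * K +
            25 * ((rt (i.1⁻¹ * v) : ℝ) + (rt (i.2.1 * v⁻¹) : ℝ))) +
            5 * Vc ^ (i.2.2 - 1 - 1) * ((if i.1⁻¹ * v ∉ C then (1 : ℝ) else 0) +
            (if v⁻¹ * i.2.1 ∉ C then (1 : ℝ) else 0))) := by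
          rw [hVc, hK]; exact_mod_cast h1
        have hp1 := pow_m1 Vc (i.2.2 - 1) (by have := (hl i hi).1; omega)
        have hp2 := pow_m2 Vc (i.2.2 - 1) (hl i hi).1
        have h3 := lo_ratio Vc _ _ _ _ (((i.2.2 - 1 : ℕ) : ℝ) / Vc) (i.2.2 - 1) hV0 (hN0 i hi)
          (hNup i hi) (Nat.cast_nonneg _) h2 (by rw [hp1]; apply le_of_eq; field_simp)
        refine le_trans (le_of_eq ?_) h3
        congr 1
        have hP1 : Vc ^ (i.2.2 - 1 - 1) / Vc ^ (i.2.2 - 1) = 1 / Vc := by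
          rw [hp1]
          have : Vc ^ (i.2.2 - 1 - 1) ≠ 0 := (pow_pos hV0 _).ne'
          field_simp
        have hP2 : Vc ^ (i.2.2 - 1 - 2) / Vc ^ (i.2.2 - 1) = 1 / Vc ^ 2 := by
          rw [hp2]
          have : Vc ^ (i.2.2 - 1 - 2) ≠ 0 := (pow_pos hV0 _).ne'
          field_simp
        calc _ = 4 * (1 / Vc ^ 2) * (41 + 5 * K +
              25 * ((rt (i.1⁻¹ * v) : ℝ) + (rt (i.2.1 * v⁻¹) : ℝ))) +
              20 * (1 / Vc) * ((if i.1⁻¹ * v ∉ C then (1 : ℝ) else 0) +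
              (if v⁻¹ * i.2.1 ∉ C then (1 : ℝ) else 0)) := by ring
          _ = _ := by rw [← hP1, ← hP2]; ring
      have hsum := sum_le_sum hper
      rw [sum_expand1 I (fun i => ((i.2.2 - 1 : ℕ) : ℝ)) (fun i => (rt (i.1⁻¹ * v) : ℝ))
        (fun i => (rt (i.2.1 * v⁻¹) : ℝ)) (fun i => if i.1⁻¹ * v ∉ C then (1 : ℝ) else 0)
        (fun i => if v⁻¹ * i.2.1 ∉ C then (1 : ℝ) else 0) Vc (4 / Vc ^ 2) (20 / Vc)
        (41 + 5 * K), hsV, div_self hV0.ne'] at hsum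
      have s1 : ∑ i ∈ I, (rt (i.1⁻¹ * v) : ℝ) ≤ n := by
        have := sum_inj_le I (fun i => i.1⁻¹ * v) (by
          intro a ha b hb hab
          exact NHh.src ha hb (inv_injective (mul_right_cancel hab))) rt
        rw [sum_rt] at this
        rw [hn]; exact_mod_cast this
      have s2 : ∑ i ∈ I, (rt (i.2.1 * v⁻¹) : ℝ) ≤ n := by
        have := sum_inj_le I (fun i => i.2.1 * v⁻¹) (by
          intro a ha b hb hab
          exact NHh.tgt ha hb (mul_right_cancel hab)) rt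
        rw [sum_rt] at this
        rw [hn]; exact_mod_cast this
      have s3 : ∑ i ∈ I, (if i.1⁻¹ * v ∉ C then (1 : ℝ) else 0) ≤ K := by
        have := sum_inj_le I (fun i => i.1⁻¹ * v) (by
          intro a ha b hb hab
          exact NHh.src ha hb (inv_injective (mul_right_cancel hab)))
          (fun g => if g ∉ C then 1 else 0)
        rw [sum_ind_compl] at this
        rw [hK]; exact_mod_cast this
      have s4 : ∑ i ∈ I, (if v⁻¹ * i.2.1 ∉ C then (1 : ℝ) else 0) ≤ K := by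
        have := sum_inj_le I (fun i => v⁻¹ * i.2.1) (by
          intro a ha b hb hab
          exact NHh.tgt ha hb (mul_left_cancel hab)) (fun g => if g ∉ C then 1 else 0)
        rw [sum_ind_compl] at this
        rw [hK]; exact_mod_cast this
      have hA : (I.card : ℝ) * (41 + 5 * K) + 25 * (∑ i ∈ I, (rt (i.1⁻¹ * v) : ℝ) +
          ∑ i ∈ I, (rt (i.2.1 * v⁻¹) : ℝ)) ≤ 96 * ε * n ^ 2 := by
        have h1 : (I.card : ℝ) * (41 + 5 * K) ≤ n * (46 * (ε * n)) :=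
          mul_le_mul hIn h41 (by positivity) hn0.le
        have h2 : n ≤ n * (ε * n) := le_mul_of_one_le_right hn0.le hn1
        nlinarith
      have hB : 4 / Vc ^ 2 * ((I.card : ℝ) * (41 + 5 * K) + 25 *
          (∑ i ∈ I, (rt (i.1⁻¹ * v) : ℝ) + ∑ i ∈ I, (rt (i.2.1 * v⁻¹) : ℝ))) ≤ 3456 * ε := by
        calc _ = (1 / Vc ^ 2) * (4 * ((I.card : ℝ) * (41 + 5 * K) + 25 *
              (∑ i ∈ I, (rt (i.1⁻¹ * v) : ℝ) + ∑ i ∈ I, (rt (i.2.1 * v⁻¹) : ℝ)))) := by ring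
          _ ≤ (9 / n ^ 2) * (4 * (96 * ε * n ^ 2)) :=
              mul_le_mul hi2 (by linarith) (by positivity) (by positivity)
          _ = 3456 * ε := by field_simp; norm_num
      have hD : 20 / Vc * (∑ i ∈ I, (if i.1⁻¹ * v ∉ C then (1 : ℝ) else 0) +
          ∑ i ∈ I, (if v⁻¹ * i.2.1 ∉ C then (1 : ℝ) else 0)) ≤ 120 * ε := by
        calc _ = (1 / Vc) * (20 * (∑ i ∈ I, (if i.1⁻¹ * v ∉ C then (1 : ℝ) else 0) +
              ∑ i ∈ I, (if v⁻¹ * i.2.1 ∉ C then (1 : ℝ) else 0))) := by ring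
          _ ≤ (3 / n) * (20 * (2 * (ε * n))) :=
              mul_le_mul hi1 (by linarith) (by positivity) (by positivity)
          _ = 120 * ε := by field_simp; norm_num
      linarith
    · -- upper bound
      have hper : ∀ i ∈ I, (((pathsF V C i).filter fun x => ∃ j, x j = v).card : ℝ) /
          (pathsF V C i).card ≤ ((i.2.2 - 1 : ℕ) : ℝ) / Vc * (1 / (1 - θ)) := by
        intro i hi
        have h1 := degv_up i.1 i.2.1 V C (m := i.2.2 - 1) (hl i hi).2 v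
        rw [← pathsF_eq] at h1
        apply up_ratio Vc _ _ _ θ (i.2.2 - 1) hV0 hθlt (hNlo i hi) (by positivity)
        have h2 : (((pathsF V C i).filter fun x => ∃ j, x j = v).card : ℝ) ≤
            ((i.2.2 - 1 : ℕ) : ℝ) * Vc ^ (i.2.2 - 1 - 1) := by
          rw [hVc]; exact_mod_cast h1
        refine h2.trans (le_of_eq ?_)
        rw [pow_m1 Vc (i.2.2 - 1) (by have := (hl i hi).1; omega)]
        field_simp
      have hsum := sum_le_sum hper
      rw [← sum_mul, ← sum_div, hsV, div_self hV0.ne', one_mul] at hsum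
      have h4 : 1 / (1 - θ) ≤ 1 / (1 - θ) * (1 + 10 * ε) :=
        le_mul_of_one_le_right (one_div_nonneg.2 (by linarith)) (by linarith)
      linarith
  · intro c hc
    have hc1 : c ≠ 1 := fun h => NHh.one (by rw [← h]; exact hc)
    -- main term
    set S1 : ℝ := ((I.filter fun i => i.1 * c ∈ V).card : ℝ) with hS1
    set S2 : ℝ := ((I.filter fun i => i.2.1 * c⁻¹ ∈ V).card : ℝ) with hS2
    set cn : ℝ := ((V.filter fun x => x * c ∈ V).card : ℝ) with hcn
    set Z : Idx G → ℝ := fun i => ((if i.1 * c ∈ V then (1 : ℝ) else 0) +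
      (if i.2.1 * c⁻¹ ∈ V then (1 : ℝ) else 0)) / Vc +
      (((i.2.2 - 1 : ℕ) : ℝ) - 1) * cn / Vc ^ 2 with hZ
    have hT : ∑ i ∈ I, Z i = (S1 + S2) / Vc + (Vc - (I.card : ℝ)) * cn / Vc ^ 2 := by
      rw [hZ, sum_add_distrib, ← sum_div, sum_add_distrib, ← sum_div, ← sum_mul,
        sum_sub_distrib, hsV, sum_const, nsmul_eq_mul, mul_one]
      congr 3
      · rw [hS1, ← sum_filter, sum_const, nsmul_eq_mul, mul_one]
      · rw [hS2, ← sum_filter, sum_const, nsmul_eq_mul, mul_one]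
    have a1 := abs_le.1 (NHh.q2s c hc)
    have a2 := abs_le.1 (NHh.q2t c hc)
    have a3 := abs_le.1 (NHh.q2v c hc)
    have hTdev : |∑ i ∈ I, Z i - 1| ≤ 10 * ε := by
      rw [hT]
      have e1 : (S1 + S2) / Vc = 2 * (I.card : ℝ) / n +
          ((S1 - (I.card : ℝ) * Vc / n) + (S2 - (I.card : ℝ) * Vc / n)) / Vc := by
        field_simp; ring
      have e2 : (Vc - (I.card : ℝ)) * cn / Vc ^ 2 = (Vc - (I.card : ℝ)) / n +
          (Vc - (I.card : ℝ)) * (cn - Vc ^ 2 / n) / Vc ^ 2 := by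
        field_simp; ring
      have e3 : (2 * (I.card : ℝ) / n) + (Vc - (I.card : ℝ)) / n = 1 - K / n := by
        have : Vc + (I.card : ℝ) = n - K := by linarith
        field_simp; linarith
      have e4 : K / n ≤ ε := by rw [div_le_iff₀ hn0]; exact hKε
      have e5 : 0 ≤ K / n := by positivity
      have e6 : |((S1 - (I.card : ℝ) * Vc / n) + (S2 - (I.card : ℝ) * Vc / n)) / Vc| ≤
          6 * ε := by
        rw [abs_div, abs_of_pos hV0, div_eq_mul_one_div]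
        have : |(S1 - (I.card : ℝ) * Vc / n) + (S2 - (I.card : ℝ) * Vc / n)| ≤
            2 * (ε * n) := by
          refine (abs_add_le _ _).trans ?_
          have b1 := NHh.q2s c hc
          have b2 := NHh.q2t c hc
          linarith
        calc _ ≤ 2 * (ε * n) * (3 / n) := mul_le_mul this hi1 (by positivity) (by positivity)
          _ = 6 * ε := by field_simp; norm_num
      have e7 : |(Vc - (I.card : ℝ)) * (cn - Vc ^ 2 / n) / Vc ^ 2| ≤ 3 * ε := by
        rw [abs_div, abs_mul, abs_of_pos (by positivity : (0 : ℝ) < Vc ^ 2)]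
        have h1 : |Vc - (I.card : ℝ)| ≤ Vc := by
          rw [abs_le]
          have : (0 : ℝ) ≤ I.card := Nat.cast_nonneg _
          constructor <;> linarith
        have h2 := NHh.q2v c hc
        rw [div_le_iff₀ (by positivity)]
        calc |Vc - (I.card : ℝ)| * |cn - Vc ^ 2 / n| ≤ Vc * (ε * n) :=
              mul_le_mul h1 h2 (abs_nonneg _) hV0.le
          _ ≤ Vc * (ε * (3 * Vc)) := by
              apply mul_le_mul_of_nonneg_left _ hV0.le
              exact mul_le_mul_of_nonneg_left hnV hε0.le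
          _ = 3 * ε * Vc ^ 2 := by ring
      rw [e1, e2]
      rw [abs_le] at e6 e7 ⊢
      constructor <;> linarith
    have hMC : ∀ i ∈ I, (MC (i.2.2 - 1) i.1 i.2.1 V c : ℝ) = Z i * Vc ^ (i.2.2 - 1) := by
      intro i hi
      have hm1 : 1 ≤ i.2.2 - 1 := by have := (hl i hi).1; omega
      rw [MC, hZ]
      simp only
      have hp1 := pow_m1 Vc (i.2.2 - 1) hm1
      have hp2 := pow_m2 Vc (i.2.2 - 1) (hl i hi).1
      push_cast [Nat.cast_sub hm1]
      rw [← hVc, ← hcn, add_mul]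
      congr 1
      · rw [hp1]; field_simp
      · rw [hp2]; field_simp
    have hZ0 : ∀ i ∈ I, 0 ≤ Z i := by
      intro i hi
      have h1 := hMC i hi
      have h2 : (0 : ℝ) ≤ (MC (i.2.2 - 1) i.1 i.2.1 V c : ℝ) := Nat.cast_nonneg _
      rw [h1] at h2
      exact nonneg_of_mul_nonneg_left h2 (pow_pos hV0 _)
    have hTd := abs_le.1 hTdev
    rw [abs_le]
    constructor
    · have hper : ∀ i ∈ I, Z i - 5 / Vc ^ 2 * ((41 + 5 * K) +
          25 * ((rt (i.1⁻¹ * i.2.1 * c) : ℝ) + (rt (i.1⁻¹ * i.2.1 * c⁻¹) : ℝ))) ≤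
          (((pathsF V C i).filter fun x => c ∈ pcols i.1 (List.ofFn x) i.2.1).card : ℝ) /
            (pathsF V C i).card := by
        intro i hi
        have h1 := degc_sum i.1 i.2.1 V C (m := i.2.2 - 1) (hl i hi).1 (hl i hi).2 c hc hc1
        rw [← pathsF_eq] at h1
        have h2 : (MC (i.2.2 - 1) i.1 i.2.1 V c : ℝ) ≤
            (((pathsF V C i).filter fun x => c ∈ pcols i.1 (List.ofFn x) i.2.1).card : ℝ) +
            5 * (Vc ^ (i.2.2 - 1 - 2) * (41 + 5 * K +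
            25 * ((rt (i.1⁻¹ * i.2.1 * c) : ℝ) + (rt (i.1⁻¹ * i.2.1 * c⁻¹) : ℝ)))) := by
          rw [hVc, hK]; exact_mod_cast h1
        have hp2 := pow_m2 Vc (i.2.2 - 1) (hl i hi).1
        have h3 := lo_ratio Vc _ _ _ _ (Z i) (i.2.2 - 1) hV0 (hN0 i hi)
          (hNup i hi) (Nat.cast_nonneg _) h2 (hMC i hi).ge
        refine le_trans (le_of_eq ?_) h3
        congr 1
        have hP2 : Vc ^ (i.2.2 - 1 - 2) / Vc ^ (i.2.2 - 1) = 1 / Vc ^ 2 := by
          rw [hp2]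
          have : Vc ^ (i.2.2 - 1 - 2) ≠ 0 := (pow_pos hV0 _).ne'
          field_simp
        calc _ = 5 * (1 / Vc ^ 2) * (41 + 5 * K +
              25 * ((rt (i.1⁻¹ * i.2.1 * c) : ℝ) + (rt (i.1⁻¹ * i.2.1 * c⁻¹) : ℝ))) := by ring
          _ = _ := by rw [← hP2]; ring
      have hsum := sum_le_sum hper
      rw [sum_expand2 I Z (fun i => (rt (i.1⁻¹ * i.2.1 * c) : ℝ))
        (fun i => (rt (i.1⁻¹ * i.2.1 * c⁻¹) : ℝ)) (5 / Vc ^ 2) (41 + 5 * K)] at hsum
      have s1 : ∑ i ∈ I, (rt (i.1⁻¹ * i.2.1 * c) : ℝ) ≤ ε * n ^ 2 := by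
        have := (NHh.q5 c hc).1
        rw [hn]; push_cast at this; exact this
      have s2 : ∑ i ∈ I, (rt (i.1⁻¹ * i.2.1 * c⁻¹) : ℝ) ≤ ε * n ^ 2 := by
        have := (NHh.q5 c hc).2
        rw [hn]; push_cast at this; exact this
      have hA : (I.card : ℝ) * (41 + 5 * K) + 25 * (∑ i ∈ I, (rt (i.1⁻¹ * i.2.1 * c) : ℝ) +
          ∑ i ∈ I, (rt (i.1⁻¹ * i.2.1 * c⁻¹) : ℝ)) ≤ 96 * ε * n ^ 2 := by
        have h1 : (I.card : ℝ) * (41 + 5 * K) ≤ n * (46 * (ε * n)) :=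
          mul_le_mul hIn h41 (by positivity) hn0.le
        nlinarith
      have hB : 5 / Vc ^ 2 * ((I.card : ℝ) * (41 + 5 * K) + 25 *
          (∑ i ∈ I, (rt (i.1⁻¹ * i.2.1 * c) : ℝ) +
            ∑ i ∈ I, (rt (i.1⁻¹ * i.2.1 * c⁻¹) : ℝ))) ≤ 4320 * ε := by
        calc _ = (1 / Vc ^ 2) * (5 * ((I.card : ℝ) * (41 + 5 * K) + 25 *
              (∑ i ∈ I, (rt (i.1⁻¹ * i.2.1 * c) : ℝ) +
                ∑ i ∈ I, (rt (i.1⁻¹ * i.2.1 * c⁻¹) : ℝ)))) := by ring
          _ ≤ (9 / n ^ 2) * (5 * (96 * ε * n ^ 2)) :=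
              mul_le_mul hi2 (by linarith) (by positivity) (by positivity)
          _ = 4320 * ε := by field_simp; norm_num
      linarith
    · have hper : ∀ i ∈ I, (((pathsF V C i).filter fun x =>
          c ∈ pcols i.1 (List.ofFn x) i.2.1).card : ℝ) /
          (pathsF V C i).card ≤ Z i * (1 / (1 - θ)) := by
        intro i hi
        have h1 := degc_up i.1 i.2.1 V C (m := i.2.2 - 1) (by have := (hl i hi).1; omega) c
        rw [← pathsF_eq] at h1
        apply up_ratio Vc _ _ _ θ (i.2.2 - 1) hV0 hθlt (hNlo i hi) (hZ0 i hi)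
        rw [← hMC i hi]
        exact_mod_cast h1
      have hsum := sum_le_sum hper
      rw [← sum_mul] at hsum
      have h4 : (∑ i ∈ I, Z i) * (1 / (1 - θ)) ≤ (1 + 10 * ε) * (1 / (1 - θ)) :=
        mul_le_mul_of_nonneg_right (by linarith) (one_div_nonneg.2 (by linarith))
      linarith

end Pool.OM.helper98
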