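import Pool.Agent.Work.MP_8d2cba_co_helper98.PV

/-! MP_8d2cba_co, blocks COD and DEG: counting lemmas (helper98). -/

set_option autoImplicit false
set_option linter.unusedSectionVars false

namespace Pool.OM.helper98

open Finset Pool.OM

section rel
variable {G : Type} [Group G] {a b c d a' b' c' d' : G}

theorem r_b (h : a⁻¹ * b = c⁻¹ * d) (h' : a'⁻¹ * b' = c'⁻¹ * d') (ha : a = a') (hc : c = c')
    (hd : d = d') : b = b' := by
  subst ha hc hd
  exact mul_left_cancel (h.trans h'.symm)

theorem r_a (h : a⁻¹ * b = c⁻¹ * d) (h' : a'⁻¹ * b' = c'⁻¹ * d') (hb : b = b') (hc : c = c')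
    (hd : d = d') : a = a' := by
  subst hb hc hd
  exact inv_injective (mul_right_cancel (h.trans h'.symm))

theorem r_d (h : a⁻¹ * b = c⁻¹ * d) (h' : a'⁻¹ * b' = c'⁻¹ * d') (ha : a = a') (hb : b = b')
    (hc : c = c') : d = d' := r_b h.symm h'.symm hc ha hb

theorem r_c (h : a⁻¹ * b = c⁻¹ * d) (h' : a'⁻¹ * b' = c'⁻¹ * d') (ha : a = a') (hb : b = b')
    (hd : d = d') : c = c' := r_a h.symm h'.symm hd ha hb

end rel

section cnt
variable {G : Type} [Group G] [DecidableEq G] {m : ℕ} (s t : G) (V : Finset G)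

theorem v1 (a : ℕ) (ha : 1 ≤ a) (ham : a ≤ m) (v : G) :
    ((AV m V).filter fun x => pv s t x a = v).card ≤ V.card ^ (m - 1) := by
  apply cnt1 s t V _ (filter_subset _ _) a ha ham
  intro x hx y hy _
  rw [mem_filter] at hx hy
  rw [hx.2, hy.2]

theorem c1 (j : ℕ) (hm : 1 ≤ m) (hj : j ≤ m) (c : G) :
    ((AV m V).filter fun x => cl s t x j = c).card ≤ V.card ^ (m - 1) := by
  by_cases hj1 : 1 ≤ j
  · apply cnt1 s t V _ (filter_subset _ _) j hj1 hj
    intro x hx y hy h
    rw [mem_filter] at hx hy
    exact arc_bwd (hx.2.trans hy.2.symm) (h (j + 1) (by omega))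
  · apply cnt1 s t V _ (filter_subset _ _) (j + 1) (by omega) (by omega)
    intro x hx y hy h
    rw [mem_filter] at hx hy
    exact arc_fwd (hx.2.trans hy.2.symm) (h j (by omega))

/-- two arc colours coincide -/
theorem e1 (j1 j2 : ℕ) (hm : 2 ≤ m) (h12 : j1 < j2) (h2 : j2 ≤ m) :
    ((AV m V).filter fun x => cl s t x j1 = cl s t x j2).card ≤ V.card ^ (m - 1) := by
  by_cases h3 : j2 = j1 + 1
  · subst h3
    by_cases h4 : 1 ≤ j1
    · apply cnt1 s t V _ (filter_subset _ _) j1 h4 (by omega)
      intro x hx y hy h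
      rw [mem_filter] at hx hy
      exact r_a hx.2 hy.2 (h _ (by omega)) (h _ (by omega)) (h _ (by omega))
    · apply cnt1 s t V _ (filter_subset _ _) (j1 + 1 + 1) (by omega) (by omega)
      intro x hx y hy h
      rw [mem_filter] at hx hy
      exact r_d hx.2 hy.2 (h _ (by omega)) (h _ (by omega)) (h _ (by omega))
  · apply cnt1 s t V _ (filter_subset _ _) j2 (by omega) (by omega)
    intro x hx y hy h
    rw [mem_filter] at hx hy
    exact r_c hx.2 hy.2 (h _ (by omega)) (h _ (by omega)) (h _ (by omega))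

/-- two vertices coincide -/
theorem q1 (q q' : ℕ) (h1 : 1 ≤ q) (h12 : q < q') (h2 : q' ≤ m) :
    ((AV m V).filter fun x => pv s t x q = pv s t x q').card ≤ V.card ^ (m - 1) := by
  apply cnt1 s t V _ (filter_subset _ _) q' (by omega) h2
  intro x hx y hy h
  rw [mem_filter] at hx hy
  rw [← hx.2, ← hy.2]
  exact h q (by omega)

theorem vT1 (a q q' : ℕ) (ha : 1 ≤ a) (ham : a ≤ m) (h1 : 1 ≤ q) (h12 : q < q') (h2 : q' ≤ m)
    (v : G) : ((AV m V).filter fun x => pv s t x a = v ∧ pv s t x q = pv s t x q').card ≤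
      V.card ^ (m - 2) := by
  by_cases hq : q' = a
  · subst hq
    apply cnt2 s t V _ (filter_subset _ _) q' q ha ham h1 (by omega) (by omega)
    intro x hx y hy h
    rw [mem_filter] at hx hy
    refine ⟨by rw [hx.2.1, hy.2.1], by rw [hx.2.2, hy.2.2, hx.2.1, hy.2.1]⟩
  · apply cnt2 s t V _ (filter_subset _ _) a q' ha ham (by omega) h2 (by omega)
    intro x hx y hy h
    rw [mem_filter] at hx hy
    have e1 : pv s t x a = pv s t y a := by rw [hx.2.1, hy.2.1]
    refine ⟨e1, ?_⟩
    rw [← hx.2.2, ← hy.2.2]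
    by_cases hqa : q = a
    · rw [hqa]; exact e1
    · exact h q hqa (by omega)

theorem vT2 (a j : ℕ) (ha : 1 ≤ a) (ham : a ≤ m) (hj : j ≤ m) (h0 : ¬ (j = 0 ∧ a = 1))
    (h1 : ¬ (j = m ∧ a = m)) (v d : G) :
    ((AV m V).filter fun x => pv s t x a = v ∧ cl s t x j = d).card ≤ V.card ^ (m - 2) := by
  by_cases hc : 1 ≤ j ∧ j ≠ a
  · apply cnt2 s t V _ (filter_subset _ _) a j ha ham hc.1 hj (Ne.symm hc.2)
    intro x hx y hy h
    rw [mem_filter] at hx hy
    have e1 : pv s t x a = pv s t y a := by rw [hx.2.1, hy.2.1]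
    refine ⟨e1, arc_bwd (hx.2.2.trans hy.2.2.symm) ?_⟩
    by_cases hja : j + 1 = a
    · rw [hja]; exact e1
    · exact h _ hja (by omega)
  · apply cnt2 s t V _ (filter_subset _ _) a (j + 1) ha ham (by omega) (by omega) (by omega)
    intro x hx y hy h
    rw [mem_filter] at hx hy
    have e1 : pv s t x a = pv s t y a := by rw [hx.2.1, hy.2.1]
    refine ⟨e1, arc_fwd (hx.2.2.trans hy.2.2.symm) ?_⟩
    by_cases hja : j = a
    · rw [hja]; exact e1
    · exact h _ hja (by omega)

/-- two arcs with given colours -/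
theorem cT2' (j j' : ℕ) (hm : 2 ≤ m) (hjj : j < j') (hj' : j' ≤ m) (c d : G) :
    ((AV m V).filter fun x => cl s t x j = c ∧ cl s t x j' = d).card ≤ V.card ^ (m - 2) := by
  by_cases h1 : j' < m
  · apply cnt2 s t V _ (filter_subset _ _) (j + 1) (j' + 1) (by omega) (by omega) (by omega)
      (by omega) (by omega)
    intro x hx y hy h
    rw [mem_filter] at hx hy
    have e1 : pv s t x (j + 1) = pv s t y (j + 1) :=
      arc_fwd (hx.2.1.trans hy.2.1.symm) (h _ (by omega) (by omega))
    refine ⟨e1, arc_fwd (hx.2.2.trans hy.2.2.symm) ?_⟩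
    by_cases hja : j' = j + 1
    · rw [hja]; exact e1
    · exact h _ hja (by omega)
  · have hjm : j' = m := by omega
    subst hjm
    by_cases h2 : j + 1 = j'
    · apply cnt2 s t V _ (filter_subset _ _) j j' (by omega) (by omega) (by omega)
        (by omega) (by omega)
      intro x hx y hy h
      rw [mem_filter] at hx hy
      have e1 : pv s t x j' = pv s t y j' :=
        arc_bwd (hx.2.2.trans hy.2.2.symm) (h _ (by omega) (by omega))
      refine ⟨arc_bwd (hx.2.1.trans hy.2.1.symm) ?_, e1⟩
      rw [h2]; exact e1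
    · apply cnt2 s t V _ (filter_subset _ _) (j + 1) j' (by omega) (by omega) (by omega)
        (by omega) (by omega)
      intro x hx y hy h
      rw [mem_filter] at hx hy
      exact ⟨arc_fwd (hx.2.1.trans hy.2.1.symm) (h _ (by omega) (by omega)),
        arc_bwd (hx.2.2.trans hy.2.2.symm) (h _ (by omega) (by omega))⟩

theorem cT2 (j j' : ℕ) (hm : 2 ≤ m) (hjj : j ≠ j') (hj : j ≤ m) (hj' : j' ≤ m) (c d : G) :
    ((AV m V).filter fun x => cl s t x j = c ∧ cl s t x j' = d).card ≤ V.card ^ (m - 2) := by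
  rcases Nat.lt_or_gt_of_ne hjj with h | h
  · exact cT2' s t V j j' hm h hj' c d
  · have := cT2' s t V j' j hm h hj d c
    have he : ((AV m V).filter fun x => cl s t x j = c ∧ cl s t x j' = d) =
        ((AV m V).filter fun x => cl s t x j' = d ∧ cl s t x j = c) := by
      apply filter_congr
      intro x _
      exact and_comm
    rw [he]; exact this

theorem cT1 (j q q' : ℕ) (hj : j ≤ m) (h1 : 1 ≤ q) (h12 : q < q') (h2 : q' ≤ m)
    (c : G) (hc : c ≠ 1) :
    ((AV m V).filter fun x => cl s t x j = c ∧ pv s t x q = pv s t x q').card ≤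
      V.card ^ (m - 2) := by
  by_cases h0 : q = j ∧ q' = j + 1
  · obtain ⟨rfl, rfl⟩ := h0
    have : ((AV m V).filter fun x => cl s t x q = c ∧ pv s t x q = pv s t x (q + 1)) = ∅ := by
      apply filter_eq_empty_iff.2
      rintro x _ ⟨hx, hx2⟩
      apply hc
      rw [← hx, cl, hx2, inv_mul_cancel]
    rw [this]; simp
  by_cases hA : 1 ≤ j ∧ j ≠ q ∧ j ≠ q'
  · apply cnt2 s t V _ (filter_subset _ _) j q' hA.1 hj (by omega) h2 hA.2.2
    intro x hx y hy h
    rw [mem_filter] at hx hy
    have e1 : pv s t x q' = pv s t y q' := by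
      rw [← hx.2.2, ← hy.2.2]
      exact h q (by omega) (by omega)
    refine ⟨arc_bwd (hx.2.1.trans hy.2.1.symm) ?_, e1⟩
    by_cases hja : j + 1 = q'
    · rw [hja]; exact e1
    · exact h _ (by omega) hja
  by_cases hB : j + 1 ≤ m ∧ j + 1 ≠ q ∧ j + 1 ≠ q'
  · apply cnt2 s t V _ (filter_subset _ _) (j + 1) q' (by omega) hB.1 (by omega) h2 hB.2.2
    intro x hx y hy h
    rw [mem_filter] at hx hy
    have e1 : pv s t x q' = pv s t y q' := by
      rw [← hx.2.2, ← hy.2.2]
      exact h q (by omega) (by omega)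
    refine ⟨arc_fwd (hx.2.1.trans hy.2.1.symm) ?_, e1⟩
    by_cases hja : j = q'
    · rw [hja]; exact e1
    · exact h _ (by omega) hja
  by_cases hC : j = 0
  · have hq1 : q = j + 1 := by omega
    subst hq1
    apply cnt2 s t V _ (filter_subset _ _) (j + 1) q' (by omega) (by omega) (by omega) h2
      (by omega)
    intro x hx y hy h
    rw [mem_filter] at hx hy
    have e1 : pv s t x (j + 1) = pv s t y (j + 1) :=
      arc_fwd (hx.2.1.trans hy.2.1.symm) (h _ (by omega) (by omega))
    refine ⟨e1, ?_⟩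
    rw [← hx.2.2, ← hy.2.2]; exact e1
  · have hq1 : q' = j := by omega
    subst hq1
    apply cnt2 s t V _ (filter_subset _ _) q q' (by omega) (by omega) (by omega) h2
      (by omega)
    intro x hx y hy h
    rw [mem_filter] at hx hy
    have e1 : pv s t x q' = pv s t y q' :=
      arc_bwd (hx.2.1.trans hy.2.1.symm) (h _ (by omega) (by omega))
    refine ⟨?_, e1⟩
    rw [hx.2.2, hy.2.2]; exact e1

end cnt

section cnt2
variable {G : Type} [Group G] [Fintype G] [DecidableEq G] {m : ℕ} (s t : G) (V : Finset G)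

theorem two_points (a b : ℕ) (ha : 1 ≤ a) (ham : a ≤ m) (hb : 1 ≤ b) (hbm : b ≤ m)
    (hab : a ≠ b) (u w : G) :
    ((AV m V).filter fun x => pv s t x a = u ∧ pv s t x b = w).card ≤ V.card ^ (m - 2) := by
  apply cnt2 s t V _ (filter_subset _ _) a b ha ham hb hbm hab
  intro x hx y hy h
  rw [mem_filter] at hx hy
  exact ⟨by rw [hx.2.1, hy.2.1], by rw [hx.2.2, hy.2.2]⟩

theorem vT3 (a j1 j2 : ℕ) (hm : 2 ≤ m) (ha : 1 ≤ a) (ham : a ≤ m) (h12 : j1 < j2) (h2 : j2 ≤ m)
    (v : G) : ((AV m V).filter fun x => pv s t x a = v ∧ cl s t x j1 = cl s t x j2).card ≤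
      V.card ^ (m - 2) * (1 + rt (s⁻¹ * v) + rt (t * v⁻¹)) := by
  have key : ((AV m V).filter fun x => pv s t x a = v ∧ cl s t x j1 = cl s t x j2).card ≤
      V.card ^ (m - 2) → ((AV m V).filter fun x => pv s t x a = v ∧
        cl s t x j1 = cl s t x j2).card ≤
      V.card ^ (m - 2) * (1 + rt (s⁻¹ * v) + rt (t * v⁻¹)) := by
    intro h
    refine h.trans ?_
    nth_rewrite 1 [← mul_one (V.card ^ (m - 2))]
    apply Nat.mul_le_mul_left
    omega
  by_cases h3 : j2 = j1 + 1
  · subst h3
    by_cases hA : 1 ≤ j1 ∧ j1 ≠ a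
    · apply key
      apply cnt2 s t V _ (filter_subset _ _) a j1 ha ham hA.1 (by omega) (Ne.symm hA.2)
      intro x hx y hy h
      rw [mem_filter] at hx hy
      have e1 : pv s t x a = pv s t y a := by rw [hx.2.1, hy.2.1]
      have e2 : ∀ q, q ≠ j1 → pv s t x q = pv s t y q := by
        intro q hq
        by_cases hqa : q = a
        · rw [hqa]; exact e1
        · exact h q hqa hq
      exact ⟨e1, r_a hx.2.2 hy.2.2 (e2 _ (by omega)) (e2 _ (by omega)) (e2 _ (by omega))⟩
    by_cases hB : j1 + 1 + 1 ≤ m ∧ j1 + 1 + 1 ≠ a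
    · apply key
      apply cnt2 s t V _ (filter_subset _ _) a (j1 + 1 + 1) ha ham (by omega) hB.1
        (Ne.symm hB.2)
      intro x hx y hy h
      rw [mem_filter] at hx hy
      have e1 : pv s t x a = pv s t y a := by rw [hx.2.1, hy.2.1]
      have e2 : ∀ q, q ≠ j1 + 1 + 1 → pv s t x q = pv s t y q := by
        intro q hq
        by_cases hqa : q = a
        · rw [hqa]; exact e1
        · exact h q hqa hq
      exact ⟨e1, r_d hx.2.2 hy.2.2 (e2 _ (by omega)) (e2 _ (by omega)) (e2 _ (by omega))⟩
    by_cases hC : j1 = 0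
    · subst hC
      have ha2 : a = 2 := by omega
      subst ha2
      have hsub : ((AV m V).filter fun x => pv s t x 2 = v ∧ cl s t x 0 = cl s t x (0 + 1)) ⊆
          (univ.filter fun r : G => r * r = s⁻¹ * v).biUnion fun r =>
            (AV m V).filter fun x => pv s t x 2 = v ∧ pv s t x 1 = s * r := by
        intro x hx
        rw [mem_filter] at hx
        rw [mem_biUnion]
        have hx3 : s⁻¹ * pv s t x 1 = (pv s t x 1)⁻¹ * pv s t x 2 := hx.2.2
        refine ⟨s⁻¹ * pv s t x 1, ?_, ?_⟩
        · rw [mem_filter]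
          refine ⟨mem_univ _, ?_⟩
          nth_rewrite 2 [hx3]
          rw [hx.2.1]
          group
        · rw [mem_filter]
          refine ⟨hx.1, hx.2.1, ?_⟩
          group
      refine (card_le_card hsub).trans (card_biUnion_le.trans ?_)
      refine (sum_le_card_nsmul _ _ (V.card ^ (m - 2)) ?_).trans ?_
      · intro r _
        exact two_points s t V 2 1 (by omega) ham (by omega) (by omega) (by omega) _ _
      · rw [smul_eq_mul, mul_comm]
        apply Nat.mul_le_mul_left
        have : (univ.filter fun r : G => r * r = s⁻¹ * v).card = rt (s⁻¹ * v) := rfl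
        omega
    · have ha2 : j1 = a := by omega
      subst ha2
      have hm2 : m = j1 + 1 := by omega
      subst hm2
      have hsub : ((AV (j1 + 1) V).filter fun x => pv s t x j1 = v ∧
          cl s t x j1 = cl s t x (j1 + 1)) ⊆
          (univ.filter fun r : G => r * r = t * v⁻¹).biUnion fun r =>
            (AV (j1 + 1) V).filter fun x => pv s t x j1 = v ∧ pv s t x (j1 + 1) = r * v := by
        intro x hx
        rw [mem_filter] at hx
        rw [mem_biUnion]
        have hx3 : (pv s t x j1)⁻¹ * pv s t x (j1 + 1) =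
          (pv s t x (j1 + 1))⁻¹ * pv s t x (j1 + 1 + 1) := hx.2.2
        rw [pv_last, hx.2.1] at hx3
        refine ⟨pv s t x (j1 + 1) * v⁻¹, ?_, ?_⟩
        · rw [mem_filter]
          refine ⟨mem_univ _, ?_⟩
          calc pv s t x (j1 + 1) * v⁻¹ * (pv s t x (j1 + 1) * v⁻¹)
              = pv s t x (j1 + 1) * (v⁻¹ * pv s t x (j1 + 1)) * v⁻¹ := by group
            _ = t * v⁻¹ := by rw [hx3]; group
        · rw [mem_filter]
          refine ⟨hx.1, hx.2.1, ?_⟩
          group
      refine (card_le_card hsub).trans (card_biUnion_le.trans ?_)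
      refine (sum_le_card_nsmul _ _ (V.card ^ (j1 + 1 - 2)) ?_).trans ?_
      · intro r _
        exact two_points s t V j1 (j1 + 1) ha ham (by omega) (by omega) (by omega) _ _
      · rw [smul_eq_mul, mul_comm]
        apply Nat.mul_le_mul_left
        have : (univ.filter fun r : G => r * r = t * v⁻¹).card = rt (t * v⁻¹) := rfl
        omega
  · apply key
    by_cases hA : j1 + 1 = a
    · apply cnt2 s t V _ (filter_subset _ _) a j2 ha ham (by omega) (by omega) (by omega)
      intro x hx y hy h
      rw [mem_filter] at hx hy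
      have e1 : pv s t x a = pv s t y a := by rw [hx.2.1, hy.2.1]
      have e2 : ∀ q, q ≠ j2 → pv s t x q = pv s t y q := by
        intro q hq
        by_cases hqa : q = a
        · rw [hqa]; exact e1
        · exact h q hqa hq
      exact ⟨e1, r_c hx.2.2 hy.2.2 (e2 _ (by omega)) (e2 _ (by omega)) (e2 _ (by omega))⟩
    · apply cnt2 s t V _ (filter_subset _ _) a (j1 + 1) ha ham (by omega) (by omega) (by omega)
      intro x hx y hy h
      rw [mem_filter] at hx hy
      have e1 : pv s t x a = pv s t y a := by rw [hx.2.1, hy.2.1]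
      have e2 : ∀ q, q ≠ j1 + 1 → pv s t x q = pv s t y q := by
        intro q hq
        by_cases hqa : q = a
        · rw [hqa]; exact e1
        · exact h q hqa hq
      exact ⟨e1, r_b hx.2.2 hy.2.2 (e2 _ (by omega)) (e2 _ (by omega)) (e2 _ (by omega))⟩

/-- one arc colour given, two others coincide: linear cases (`3 ≤ m`) -/
theorem cT3a (j j1 j2 : ℕ) (hm : 3 ≤ m) (hj : j ≤ m) (h12 : j1 < j2) (h2 : j2 ≤ m)
    (hj1 : j ≠ j1) (hj2 : j ≠ j2) (c : G) :
    ((AV m V).filter fun x => cl s t x j = c ∧ cl s t x j1 = cl s t x j2).card ≤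
      V.card ^ (m - 2) := by
  -- generic step: `w` endpoint of arc `j`, `u` outside arc `j`, determined by the relation
  have gen : ∀ u : ℕ, 1 ≤ u → u ≤ m → u ≠ j → u ≠ j + 1 →
      (∀ x y : Fin m → G, cl s t x j1 = cl s t x j2 → cl s t y j1 = cl s t y j2 →
        (∀ q, q ≠ u → pv s t x q = pv s t y q) → pv s t x u = pv s t y u) →
      ((AV m V).filter fun x => cl s t x j = c ∧ cl s t x j1 = cl s t x j2).card ≤
      V.card ^ (m - 2) := by
    intro u hu hum huj huj' hr
    by_cases hw : 1 ≤ j
    · apply cnt2 s t V _ (filter_subset _ _) u j hu hum hw hj huj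
      intro x hx y hy h
      rw [mem_filter] at hx hy
      have e1 : pv s t x j = pv s t y j :=
        arc_bwd (hx.2.1.trans hy.2.1.symm) (h _ (by omega) (by omega))
      refine ⟨hr x y hx.2.2 hy.2.2 ?_, e1⟩
      intro q hq
      by_cases hqj : q = j
      · rw [hqj]; exact e1
      · exact h q hq hqj
    · apply cnt2 s t V _ (filter_subset _ _) u (j + 1) hu hum (by omega) (by omega) huj'
      intro x hx y hy h
      rw [mem_filter] at hx hy
      have e1 : pv s t x (j + 1) = pv s t y (j + 1) :=
        arc_fwd (hx.2.1.trans hy.2.1.symm) (h _ (by omega) (by omega))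
      refine ⟨hr x y hx.2.2 hy.2.2 ?_, e1⟩
      intro q hq
      by_cases hqj : q = j + 1
      · rw [hqj]; exact e1
      · exact h q hq hqj
  by_cases h3 : j2 = j1 + 1
  · subst h3
    by_cases hlt : j < j1
    · by_cases hA : j1 + 1 + 1 ≤ m
      · apply gen (j1 + 1 + 1) (by omega) hA (by omega) (by omega)
        intro x y hx hy h
        exact r_d hx hy (h _ (by omega)) (h _ (by omega)) (h _ (by omega))
      · by_cases hB : j + 1 = j1
        · apply cnt2 s t V _ (filter_subset _ _) j j1 (by omega) (by omega) (by omega) (by omega)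
            (by omega)
          intro x hx y hy h
          rw [mem_filter] at hx hy
          have e1 : pv s t x j1 = pv s t y j1 :=
            r_a hx.2.2 hy.2.2 (h _ (by omega) (by omega)) (h _ (by omega) (by omega))
              (h _ (by omega) (by omega))
          refine ⟨arc_bwd (hx.2.1.trans hy.2.1.symm) ?_, e1⟩
          rw [hB]; exact e1
        · apply gen j1 (by omega) (by omega) (by omega) (by omega)
          intro x y hx hy h
          exact r_a hx hy (h _ (by omega)) (h _ (by omega)) (h _ (by omega))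
    · by_cases hA : 1 ≤ j1
      · apply gen j1 (by omega) (by omega) (by omega) (by omega)
        intro x y hx hy h
        exact r_a hx hy (h _ (by omega)) (h _ (by omega)) (h _ (by omega))
      · by_cases hB : j = j1 + 1 + 1
        · apply cnt2 s t V _ (filter_subset _ _) j (j + 1) (by omega) (by omega) (by omega)
            (by omega) (by omega)
          intro x hx y hy h
          rw [mem_filter] at hx hy
          subst hB
          have e1 : pv s t x (j1 + 1 + 1) = pv s t y (j1 + 1 + 1) :=
            r_d hx.2.2 hy.2.2 (h _ (by omega) (by omega)) (h _ (by omega) (by omega))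
              (h _ (by omega) (by omega))
          exact ⟨e1, arc_fwd (hx.2.1.trans hy.2.1.symm) e1⟩
        · apply gen (j1 + 1 + 1) (by omega) (by omega) (by omega) (by omega)
          intro x y hx hy h
          exact r_d hx hy (h _ (by omega)) (h _ (by omega)) (h _ (by omega))
  · by_cases hA : j = j1 + 1 ∧ j2 = j1 + 2
    · obtain ⟨rfl, rfl⟩ := hA
      by_cases hB : 1 ≤ j1
      · apply cnt2 s t V _ (filter_subset _ _) j1 (j1 + 1 + 1) (by omega) (by omega) (by omega)
          (by omega) (by omega)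
        intro x hx y hy h
        rw [mem_filter] at hx hy
        have e1 : pv s t x (j1 + 1 + 1) = pv s t y (j1 + 1 + 1) :=
          arc_fwd (hx.2.1.trans hy.2.1.symm) (h _ (by omega) (by omega))
        refine ⟨r_a hx.2.2 hy.2.2 (h _ (by omega) (by omega)) e1 (h _ (by omega) (by omega)), e1⟩
      · apply cnt2 s t V _ (filter_subset _ _) (j1 + 2 + 1) (j1 + 1 + 1) (by omega) (by omega)
          (by omega) (by omega) (by omega)
        intro x hx y hy h
        rw [mem_filter] at hx hy
        have e1 : pv s t x (j1 + 1 + 1) = pv s t y (j1 + 1 + 1) :=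
          arc_fwd (hx.2.1.trans hy.2.1.symm) (h _ (by omega) (by omega))
        refine ⟨r_d hx.2.2 hy.2.2 (h _ (by omega) (by omega)) (h _ (by omega) (by omega)) e1, e1⟩
    · by_cases hB : j1 + 1 ≠ j ∧ j1 + 1 ≠ j + 1
      · apply gen (j1 + 1) (by omega) (by omega) hB.1 hB.2
        intro x y hx hy h
        exact r_b hx hy (h _ (by omega)) (h _ (by omega)) (h _ (by omega))
      · apply gen j2 (by omega) (by omega) (by omega) (by omega)
        intro x y hx hy h
        exact r_c hx hy (h _ (by omega)) (h _ (by omega)) (h _ (by omega))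

end cnt2

end Pool.OM.helper98
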