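import Pool.Agent.Work.MP_8d2cba_co_helper98.CNT

/-! MP_8d2cba_co, block COD (helper98). -/

set_option autoImplicit false
set_option linter.unusedSectionVars false

namespace Pool.OM.helper98

open Finset Pool.OM

section per
variable {G : Type} [Group G] [Fintype G] [DecidableEq G] {m : ℕ} (s t : G) (V : Finset G)

/-- union bound over positions -/
theorem ub1 (R : Finset ℕ) (S : Finset (Fin m → G)) (P : (Fin m → G) → Prop)
    [DecidablePred P] (Q : ℕ → (Fin m → G) → Prop) [∀ a, DecidablePred (Q a)] (b : ℕ)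
    (h : ∀ x ∈ S, P x → ∃ a ∈ R, Q a x) (hb : ∀ a ∈ R, (S.filter (Q a)).card ≤ b) :
    (S.filter P).card ≤ R.card * b := by
  have hsub : S.filter P ⊆ R.biUnion fun a => S.filter (Q a) := by
    intro x hx
    rw [mem_filter] at hx
    obtain ⟨a, ha, hq⟩ := h x hx.1 hx.2
    rw [mem_biUnion]
    exact ⟨a, ha, mem_filter.2 ⟨hx.1, hq⟩⟩
  refine (card_le_card hsub).trans (card_biUnion_le.trans ?_)
  refine (sum_le_card_nsmul _ _ b hb).trans ?_
  rw [smul_eq_mul]

theorem ub2 (R : Finset (ℕ × ℕ)) (S : Finset (Fin m → G)) (P : (Fin m → G) → Prop)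
    [DecidablePred P] (Q : ℕ × ℕ → (Fin m → G) → Prop) [∀ a, DecidablePred (Q a)] (b : ℕ)
    (h : ∀ x ∈ S, P x → ∃ a ∈ R, Q a x) (hb : ∀ a ∈ R, (S.filter (Q a)).card ≤ b) :
    (S.filter P).card ≤ R.card * b := by
  have hsub : S.filter P ⊆ R.biUnion fun a => S.filter (Q a) := by
    intro x hx
    rw [mem_filter] at hx
    obtain ⟨a, ha, hq⟩ := h x hx.1 hx.2
    rw [mem_biUnion]
    exact ⟨a, ha, mem_filter.2 ⟨hx.1, hq⟩⟩
  refine (card_le_card hsub).trans (card_biUnion_le.trans ?_)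
  refine (sum_le_card_nsmul _ _ b hb).trans ?_
  rw [smul_eq_mul]

theorem card_Icc_le (hm : m ≤ 4) : (Icc 1 m).card ≤ 4 := by
  rw [Nat.card_Icc]; omega

theorem card_range_le5 (hm : m ≤ 4) : (range (m + 1)).card ≤ 5 := by
  rw [card_range]; omega

theorem exists_pos (x : Fin m → G) (v : G) (h : ∃ j, x j = v) :
    ∃ a ∈ Icc 1 m, pv s t x a = v := by
  obtain ⟨j, hj⟩ := h
  exact ⟨j.1 + 1, by rw [mem_Icc]; have := j.2; omega, by rw [pv_fin]; exact hj⟩

theorem cod_a (hm : m ≤ 4) (v : G) :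
    ((AV m V).filter fun x => ∃ j, x j = v).card ≤ 4 * V.card ^ (m - 1) := by
  refine (ub1 (Icc 1 m) (AV m V) _ (fun a x => pv 1 1 x a = v) (V.card ^ (m - 1)) ?_ ?_).trans ?_
  · intro x _ h; exact exists_pos 1 1 x v h
  · intro a ha
    rw [mem_Icc] at ha
    exact v1 1 1 V a ha.1 ha.2 v
  · exact Nat.mul_le_mul_right _ (card_Icc_le hm)

theorem cod_b (hm1 : 1 ≤ m) (hm : m ≤ 4) (c : G) :
    ((AV m V).filter fun x => c ∈ pcols s (List.ofFn x) t).card ≤ 5 * V.card ^ (m - 1) := by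
  refine (ub1 (range (m + 1)) (AV m V) _ (fun a x => cl s t x a = c) (V.card ^ (m - 1))
    ?_ ?_).trans ?_
  · intro x _ h
    obtain ⟨j, hj, hc⟩ := (mem_pcols s t x c).1 h
    exact ⟨j, by rw [mem_range]; omega, hc⟩
  · intro a ha
    rw [mem_range] at ha
    exact c1 s t V a hm1 (by omega) c
  · exact Nat.mul_le_mul_right _ (card_range_le5 hm)

theorem cod_c (hm : m ≤ 4) (v v' : G) (hv : v ≠ v') :
    ((AV m V).filter fun x => (∃ j, x j = v) ∧ ∃ j, x j = v').card ≤
      16 * V.card ^ (m - 2) := by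
  refine (ub2 ((Icc 1 m) ×ˢ (Icc 1 m)) (AV m V) _
    (fun a x => pv 1 1 x a.1 = v ∧ pv 1 1 x a.2 = v') (V.card ^ (m - 2)) ?_ ?_).trans ?_
  · intro x _ h
    obtain ⟨a, ha, h1⟩ := exists_pos 1 1 x v h.1
    obtain ⟨b, hb, h2⟩ := exists_pos 1 1 x v' h.2
    exact ⟨(a, b), mem_product.2 ⟨ha, hb⟩, h1, h2⟩
  · rintro ⟨a, b⟩ hab
    rw [mem_product, mem_Icc, mem_Icc] at hab
    by_cases hne : a = b
    · subst hne
      have : ((AV m V).filter fun x => pv 1 1 x a = v ∧ pv 1 1 x a = v') = ∅ := by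
        apply filter_eq_empty_iff.2
        rintro x _ ⟨h1, h2⟩
        exact hv (h1.symm.trans h2)
      simp only
      rw [this]; simp
    · exact two_points 1 1 V a b hab.1.1 hab.1.2 hab.2.1 hab.2.2 hne v v'
  · rw [card_product]
    have := card_Icc_le hm
    apply Nat.mul_le_mul_right
    calc (Icc 1 m).card * (Icc 1 m).card ≤ 4 * 4 := Nat.mul_le_mul this this
      _ = 16 := rfl

theorem cod_d (hm2 : 2 ≤ m) (hm : m ≤ 4) (v c : G) :
    ((AV m V).filter fun x => (∃ j, x j = v) ∧ c ∈ pcols s (List.ofFn x) t).card ≤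
      20 * V.card ^ (m - 2) + V.card ^ (m - 1) *
        ((if s = v * c⁻¹ then 1 else 0) + (if t = v * c then 1 else 0)) := by
  have hsub : ((AV m V).filter fun x => (∃ j, x j = v) ∧ c ∈ pcols s (List.ofFn x) t) ⊆
      ((AV m V).filter fun x => ∃ p ∈ ((Icc 1 m) ×ˢ (range (m + 1))).filter
        (fun p : ℕ × ℕ => ¬ (p.2 = 0 ∧ p.1 = 1) ∧ ¬ (p.2 = m ∧ p.1 = m)),
        pv s t x p.1 = v ∧ cl s t x p.2 = c) ∪
      (((AV m V).filter fun x => pv s t x 1 = v ∧ cl s t x 0 = c) ∪
      ((AV m V).filter fun x => pv s t x m = v ∧ cl s t x m = c)) := by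
    intro x hx
    rw [mem_filter] at hx
    obtain ⟨a, ha, h1⟩ := exists_pos s t x v hx.2.1
    obtain ⟨j, hj, h2⟩ := (mem_pcols s t x c).1 hx.2.2
    rw [mem_union, mem_union, mem_filter, mem_filter, mem_filter]
    by_cases hA : j = 0 ∧ a = 1
    · obtain ⟨rfl, rfl⟩ := hA
      exact Or.inr (Or.inl ⟨hx.1, h1, h2⟩)
    by_cases hB : j = m ∧ a = m
    · right; right
      rw [hB.2] at h1
      rw [hB.1] at h2
      exact ⟨hx.1, h1, h2⟩
    · left
      refine ⟨hx.1, (a, j), ?_, h1, h2⟩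
      rw [mem_filter, mem_product, mem_range]
      exact ⟨⟨ha, by simp only; omega⟩, hA, hB⟩
  refine (card_le_card hsub).trans ((card_union_le _ _).trans (Nat.add_le_add ?_
    ((card_union_le _ _).trans ?_)))
  · refine (ub2 _ (AV m V) _ (fun p x => pv s t x p.1 = v ∧ cl s t x p.2 = c)
      (V.card ^ (m - 2)) (fun x _ h => h) ?_).trans ?_
    · rintro ⟨a, j⟩ hp
      rw [mem_filter, mem_product, mem_range, mem_Icc] at hp
      simp only at hp
      exact vT2 s t V a j hp.1.1.1 hp.1.1.2 (by omega) hp.2.1 hp.2.2 v c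
    · apply Nat.mul_le_mul_right
      refine (card_filter_le _ _).trans ?_
      rw [card_product]
      calc (Icc 1 m).card * (range (m + 1)).card ≤ 4 * 5 :=
            Nat.mul_le_mul (card_Icc_le hm) (card_range_le5 hm)
        _ = 20 := rfl
  · rw [mul_add]
    apply Nat.add_le_add
    · by_cases hs : s = v * c⁻¹
      · rw [if_pos hs, mul_one]
        refine (card_le_card ?_).trans (v1 s t V 1 le_rfl (by omega) v)
        intro x hx
        rw [mem_filter] at hx ⊢
        exact ⟨hx.1, hx.2.1⟩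
      · have : ((AV m V).filter fun x => pv s t x 1 = v ∧ cl s t x 0 = c) = ∅ := by
          apply filter_eq_empty_iff.2
          rintro x _ ⟨h1, h2⟩
          apply hs
          have h3 : s⁻¹ * pv s t x 1 = c := h2
          rw [← h3, h1]
          group
        rw [this]; simp
    · by_cases hs : t = v * c
      · rw [if_pos hs, mul_one]
        refine (card_le_card ?_).trans (v1 s t V m (by omega) le_rfl v)
        intro x hx
        rw [mem_filter] at hx ⊢
        exact ⟨hx.1, hx.2.1⟩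
      · have : ((AV m V).filter fun x => pv s t x m = v ∧ cl s t x m = c) = ∅ := by
          apply filter_eq_empty_iff.2
          rintro x _ ⟨h1, h2⟩
          apply hs
          rw [← h2, ← h1, cl, pv_last]
          group
        rw [this]; simp

theorem cod_e (hm2 : 2 ≤ m) (hm : m ≤ 4) (c c' : G) (hc : c ≠ c') :
    ((AV m V).filter fun x => c ∈ pcols s (List.ofFn x) t ∧
      c' ∈ pcols s (List.ofFn x) t).card ≤ 25 * V.card ^ (m - 2) := by
  refine (ub2 ((range (m + 1)) ×ˢ (range (m + 1))) (AV m V) _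
    (fun a x => cl s t x a.1 = c ∧ cl s t x a.2 = c') (V.card ^ (m - 2)) ?_ ?_).trans ?_
  · intro x _ h
    obtain ⟨j, hj, h1⟩ := (mem_pcols s t x c).1 h.1
    obtain ⟨j', hj', h2⟩ := (mem_pcols s t x c').1 h.2
    exact ⟨(j, j'), by rw [mem_product, mem_range, mem_range]; simp only; omega, h1, h2⟩
  · rintro ⟨a, b⟩ hab
    rw [mem_product, mem_range, mem_range] at hab
    simp only at hab
    by_cases hne : a = b
    · subst hne
      have : ((AV m V).filter fun x => cl s t x a = c ∧ cl s t x a = c') = ∅ := by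
        apply filter_eq_empty_iff.2
        rintro x _ ⟨h1, h2⟩
        exact hc (h1.symm.trans h2)
      simp only
      rw [this]; simp
    · exact cT2 s t V a b hm2 hne (by omega) (by omega) c c'
  · rw [card_product]
    have := card_range_le5 hm
    apply Nat.mul_le_mul_right
    calc (range (m + 1)).card * (range (m + 1)).card ≤ 5 * 5 := Nat.mul_le_mul this this
      _ = 25 := rfl

end per

/-- ratio bound -/
theorem ratio_le (Vc N a k : ℝ) (r m : ℕ) (hV : 0 < Vc) (hr : r ≤ m)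
    (hN : Vc ^ m ≤ 2 * N) (ha : a ≤ k * Vc ^ (m - r)) (hk : 0 ≤ k) :
    a / N ≤ 2 * k / Vc ^ r := by
  have hVm : 0 < Vc ^ m := pow_pos hV m
  have hVr : 0 < Vc ^ r := pow_pos hV r
  have hN0 : 0 < N := by linarith
  rw [div_le_div_iff₀ hN0 hVr]
  have h1 : Vc ^ (m - r) * Vc ^ r = Vc ^ m := by rw [← pow_add]; congr 1; omega
  calc a * Vc ^ r ≤ k * Vc ^ (m - r) * Vc ^ r := mul_le_mul_of_nonneg_right ha hVr.le
    _ = k * Vc ^ m := by rw [mul_assoc, h1]
    _ ≤ k * (2 * N) := mul_le_mul_of_nonneg_left hN hk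
    _ = 2 * k * N := by ring

section main
variable {G : Type} [Group G] [Fintype G] [DecidableEq G]

theorem paths_sub (V C : Finset G) (i : Idx G) : pathsF V C i ⊆ AV (i.2.2 - 1) V := by
  intro x hx
  rw [pathsF, mem_filter] at hx
  exact (mem_AV V x).2 hx.2.2.1

theorem filt_le (V C : Finset G) (i : Idx G) (P : (Fin (i.2.2 - 1) → G) → Prop)
    [DecidablePred P] : ((pathsF V C i).filter P).card ≤ ((AV (i.2.2 - 1) V).filter P).card :=
  card_le_card (filter_subset_filter _ (paths_sub V C i))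

theorem card_I_le (I : Finset (Idx G)) (h : Set.InjOn (fun i : Idx G => i.1) (I : Set (Idx G))) :
    I.card ≤ Fintype.card G := by
  rw [← card_univ]
  exact card_le_card_of_injOn (fun i => i.1) (fun i _ => mem_univ _) h

theorem sum_ind_src (I : Finset (Idx G))
    (h : Set.InjOn (fun i : Idx G => i.1) (I : Set (Idx G))) (g : G) :
    ∑ i ∈ I, (if i.1 = g then (1 : ℝ) else 0) ≤ 1 := by
  rw [← Finset.sum_filter, Finset.sum_const, nsmul_eq_mul, mul_one]
  have : (I.filter fun i => i.1 = g).card ≤ 1 := by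
    rw [card_le_one]
    intro a ha b hb
    rw [mem_filter] at ha hb
    exact h ha.1 hb.1 (ha.2.trans hb.2.symm)
  exact_mod_cast this

theorem sum_ind_tgt (I : Finset (Idx G))
    (h : Set.InjOn (fun i : Idx G => i.2.1) (I : Set (Idx G))) (g : G) :
    ∑ i ∈ I, (if i.2.1 = g then (1 : ℝ) else 0) ≤ 1 := by
  rw [← Finset.sum_filter, Finset.sum_const, nsmul_eq_mul, mul_one]
  have : (I.filter fun i => i.2.1 = g).card ≤ 1 := by
    rw [card_le_one]
    intro a ha b hb
    rw [mem_filter] at ha hb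
    exact h ha.1 hb.1 (ha.2.trans hb.2.symm)
  exact_mod_cast this

end main

theorem stmt_COD : Stmt_COD := by
  refine ⟨2000, ?_⟩
  intro G _ _ _ I V C hl hs ht hn hp
  have hn0 : (0 : ℝ) < Fintype.card G := by exact_mod_cast Fintype.card_pos
  have hV0 : (0 : ℝ) < V.card := by linarith
  have hV1 : (1 : ℝ) / V.card ≤ 6 / Fintype.card G := by
    rw [div_le_div_iff₀ hV0 hn0]; linarith
  have hV2 : (1 : ℝ) / (V.card : ℝ) ^ 2 ≤ 36 / (Fintype.card G : ℝ) ^ 2 := by
    rw [div_le_div_iff₀ (by positivity) (by positivity)]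
    nlinarith
  have hI : (I.card : ℝ) ≤ Fintype.card G := by exact_mod_cast card_I_le I hs
  have r1 : ∀ i ∈ I, ∀ (a : ℕ) (k : ℝ), 0 ≤ k → (a : ℝ) ≤ k * (V.card : ℝ) ^ (i.2.2 - 1 - 1) →
      (a : ℝ) / (pathsF V C i).card ≤ 12 * k / Fintype.card G := by
    intro i hi a k hk ha
    have h1 := ratio_le (V.card : ℝ) (pathsF V C i).card a k 1 (i.2.2 - 1) hV0
      (by rcases hl i hi with h | h | h <;> omega) (hp i hi) ha hk
    calc (a : ℝ) / (pathsF V C i).card ≤ 2 * k / (V.card : ℝ) ^ 1 := h1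
      _ = 2 * k * (1 / V.card) := by rw [pow_one]; ring
      _ ≤ 2 * k * (6 / Fintype.card G) := mul_le_mul_of_nonneg_left hV1 (by positivity)
      _ = 12 * k / Fintype.card G := by ring
  have r2 : ∀ i ∈ I, ∀ (a : ℕ) (k : ℝ), 0 ≤ k → (a : ℝ) ≤ k * (V.card : ℝ) ^ (i.2.2 - 1 - 2) →
      (a : ℝ) / (pathsF V C i).card ≤ 72 * k / (Fintype.card G : ℝ) ^ 2 := by
    intro i hi a k hk ha
    have h1 := ratio_le (V.card : ℝ) (pathsF V C i).card a k 2 (i.2.2 - 1) hV0
      (by rcases hl i hi with h | h | h <;> omega) (hp i hi) ha hk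
    calc (a : ℝ) / (pathsF V C i).card ≤ 2 * k / (V.card : ℝ) ^ 2 := h1
      _ = 2 * k * (1 / (V.card : ℝ) ^ 2) := by ring
      _ ≤ 2 * k * (36 / (Fintype.card G : ℝ) ^ 2) := mul_le_mul_of_nonneg_left hV2 (by positivity)
      _ = 72 * k / (Fintype.card G : ℝ) ^ 2 := by ring
  have hsum : ∀ k : ℝ, 0 ≤ k → ∑ _i ∈ I, 72 * k / (Fintype.card G : ℝ) ^ 2 ≤
      72 * k / Fintype.card G := by
    intro k hk
    rw [sum_const, nsmul_eq_mul]
    have : (I.card : ℝ) * (72 * k / (Fintype.card G : ℝ) ^ 2) ≤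
        (Fintype.card G : ℝ) * (72 * k / (Fintype.card G : ℝ) ^ 2) :=
      mul_le_mul_of_nonneg_right hI (by positivity)
    refine this.trans (le_of_eq ?_)
    field_simp
  have hm2 : ∀ i ∈ I, 2 ≤ i.2.2 - 1 := fun i hi => by rcases hl i hi with h | h | h <;> omega
  have hm4 : ∀ i ∈ I, i.2.2 - 1 ≤ 4 := fun i hi => by rcases hl i hi with h | h | h <;> omega
  refine ⟨?_, ?_, ?_, ?_, ?_⟩
  · intro i hi v
    refine (r1 i hi _ 4 (by norm_num) ?_).trans ?_
    · exact_mod_cast (filt_le V C i _).trans (cod_a V (hm4 i hi) v)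
    · exact div_le_div_of_nonneg_right (by norm_num) hn0.le
  · intro i hi c
    refine (r1 i hi _ 5 (by norm_num) ?_).trans ?_
    · exact_mod_cast (filt_le V C i _).trans (cod_b i.1 i.2.1 V
        (by have := hm2 i hi; omega) (hm4 i hi) c)
    · exact div_le_div_of_nonneg_right (by norm_num) hn0.le
  · intro v v' hv
    refine (sum_le_sum fun i hi => r2 i hi _ 16 (by norm_num) ?_).trans ?_
    · exact_mod_cast (filt_le V C i _).trans (cod_c V (hm4 i hi) v v' hv)
    · exact (hsum 16 (by norm_num)).trans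
        (div_le_div_of_nonneg_right (by norm_num) hn0.le)
  · intro v c
    have h1 : ∀ i ∈ I, (((pathsF V C i).filter fun x =>
        (∃ j, x j = v) ∧ c ∈ pcols i.1 (List.ofFn x) i.2.1).card : ℝ) /
        (pathsF V C i).card ≤ 72 * 20 / (Fintype.card G : ℝ) ^ 2 +
        (12 / Fintype.card G) * ((if i.1 = v * c⁻¹ then (1 : ℝ) else 0) +
          (if i.2.1 = v * c then (1 : ℝ) else 0)) := by
      intro i hi
      have h2 := (filt_le V C i _).trans (cod_d i.1 i.2.1 V (hm2 i hi) (hm4 i hi) v c)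
      have h3 := r2 i hi (20 * V.card ^ (i.2.2 - 1 - 2)) 20 (by norm_num) (by push_cast; rfl)
      have h4 := r1 i hi (V.card ^ (i.2.2 - 1 - 1) *
        ((if i.1 = v * c⁻¹ then 1 else 0) + (if i.2.1 = v * c then 1 else 0)))
        ((if i.1 = v * c⁻¹ then (1 : ℝ) else 0) + (if i.2.1 = v * c then (1 : ℝ) else 0))
        (by positivity) (by push_cast; rw [mul_comm])
      have h5 : (((pathsF V C i).filter fun x =>
          (∃ j, x j = v) ∧ c ∈ pcols i.1 (List.ofFn x) i.2.1).card : ℝ) ≤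
          ((20 * V.card ^ (i.2.2 - 1 - 2) : ℕ) : ℝ) + ((V.card ^ (i.2.2 - 1 - 1) *
        ((if i.1 = v * c⁻¹ then 1 else 0) + (if i.2.1 = v * c then 1 else 0)) : ℕ) : ℝ) := by
        exact_mod_cast h2
      refine (div_le_div_of_nonneg_right h5 (Nat.cast_nonneg _)).trans ?_
      rw [add_div]
      refine (add_le_add h3 h4).trans (le_of_eq ?_)
      ring
    refine (sum_le_sum h1).trans ?_
    rw [sum_add_distrib, ← mul_sum, sum_add_distrib]
    have h6 := hsum 20 (by norm_num)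
    have h7 : (12 / (Fintype.card G : ℝ)) * (∑ i ∈ I, (if i.1 = v * c⁻¹ then (1 : ℝ) else 0) +
        ∑ i ∈ I, (if i.2.1 = v * c then (1 : ℝ) else 0)) ≤ (12 / (Fintype.card G : ℝ)) * 2 := by
      apply mul_le_mul_of_nonneg_left _ (by positivity)
      have := sum_ind_src I hs (v * c⁻¹)
      have := sum_ind_tgt I ht (v * c)
      linarith
    refine (add_le_add h6 h7).trans ?_
    have h8 : 72 * 20 / (Fintype.card G : ℝ) + 12 / (Fintype.card G : ℝ) * 2 =
      1464 / Fintype.card G := by ring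
    rw [h8]
    exact div_le_div_of_nonneg_right (by norm_num) hn0.le
  · intro c c' hc
    refine (sum_le_sum fun i hi => r2 i hi _ 25 (by norm_num) ?_).trans ?_
    · exact_mod_cast (filt_le V C i _).trans (cod_e i.1 i.2.1 V (hm2 i hi) (hm4 i hi) c c' hc)
    · exact (hsum 25 (by norm_num)).trans
        (div_le_div_of_nonneg_right (by norm_num) hn0.le)

end Pool.OM.helper98
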