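import Pool.Agent.Work.MP_8d2cba_co_helper98.COD

/-! MP_8d2cba_co, block DEG, part 1: counting for one index (helper98). -/

set_option autoImplicit false
set_option linter.unusedSectionVars false

namespace Pool.OM.helper98

open Finset Pool.OM

section per
variable {G : Type} [Group G] [Fintype G] [DecidableEq G] {m : ℕ} (s t : G) (V C : Finset G)

/-- allowed paths -/
def PF (m : ℕ) (s t : G) (V C : Finset G) : Finset (Fin m → G) :=
  univ.filter fun x => Function.Injective x ∧ (∀ j, x j ∈ V) ∧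
    (pcols s (List.ofFn x) t).Nodup ∧ ∀ c ∈ pcols s (List.ofFn x) t, c ∈ C

theorem pathsF_eq (i : Idx G) : pathsF V C i = PF (i.2.2 - 1) i.1 i.2.1 V C := rfl

theorem PF_sub : PF m s t V C ⊆ AV m V := by
  intro x hx
  rw [PF, mem_filter] at hx
  exact (mem_AV V x).2 hx.2.2.1

theorem two_eq (hm : m = 2) {x y : Fin m → G} (h1 : pv s t x 1 = pv s t y 1)
    (h2 : pv s t x 2 = pv s t y 2) : x = y := by
  funext j
  rw [← pv_fin s t x j, ← pv_fin s t y j]
  have hj := j.2
  have : j.1 + 1 = 1 ∨ j.1 + 1 = 2 := by omega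
  rcases this with h | h
  · rw [h]; exact h1
  · rw [h]; exact h2

/-- the quadratic cases -/
theorem cT3b (j j1 j2 : ℕ) (hm : m = 2) (hj : j ≤ m) (h12 : j1 < j2) (h2 : j2 ≤ m)
    (hj1 : j ≠ j1) (hj2 : j ≠ j2) (c : G) :
    ((AV m V).filter fun x => cl s t x j = c ∧ cl s t x j1 = cl s t x j2).card ≤
      rt (s⁻¹ * t * c) + rt (s⁻¹ * t * c⁻¹) := by
  have p3 : ∀ x : Fin m → G, pv s t x 3 = t := by
    intro x
    subst hm
    exact pv_last s t x
  by_cases hj0 : j = 0
  · have e1 : j1 = 1 := by omega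
    have e2 : j2 = 2 := by omega
    subst hj0 e1 e2
    refine le_trans ?_ (Nat.le_add_left _ _)
    apply card_le_card_of_injOn (fun x => s⁻¹ * (pv s t x 2 * (pv s t x 1)⁻¹) * s)
    · intro x hx
      rw [mem_coe, mem_filter] at hx
      rw [mem_coe, mem_filter]
      refine ⟨mem_univ _, ?_⟩
      have hx1 : s⁻¹ * pv s t x 1 = c := hx.2.1
      have hx2 : (pv s t x 1)⁻¹ * pv s t x 2 = (pv s t x 2)⁻¹ * pv s t x 3 := hx.2.2
      rw [p3] at hx2
      calc s⁻¹ * (pv s t x 2 * (pv s t x 1)⁻¹) * s * (s⁻¹ * (pv s t x 2 * (pv s t x 1)⁻¹) * s)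
          = s⁻¹ * (pv s t x 2 * ((pv s t x 1)⁻¹ * pv s t x 2)) * (pv s t x 1)⁻¹ * s := by group
        _ = s⁻¹ * t * (s⁻¹ * pv s t x 1)⁻¹ := by rw [hx2]; group
        _ = s⁻¹ * t * c⁻¹ := by rw [hx1]
    · intro x hx y hy hxy
      rw [mem_coe, mem_filter] at hx hy
      have hx1 : s⁻¹ * pv s t x 1 = c := hx.2.1
      have hy1 : s⁻¹ * pv s t y 1 = c := hy.2.1
      have h1 : pv s t x 1 = pv s t y 1 := mul_left_cancel (hx1.trans hy1.symm)
      refine two_eq s t hm h1 ?_
      simp only at hxy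
      have h3 := mul_left_cancel (mul_right_cancel hxy)
      rw [h1] at h3
      exact mul_right_cancel h3
  · by_cases hj1' : j = 1
    · have e1 : j1 = 0 := by omega
      have e2 : j2 = 2 := by omega
      subst hj1' e1 e2
      refine le_trans ?_ (Nat.le_add_right _ _)
      apply card_le_card_of_injOn (fun x => s⁻¹ * pv s t x 1 * c)
      · intro x hx
        rw [mem_coe, mem_filter] at hx
        rw [mem_coe, mem_filter]
        refine ⟨mem_univ _, ?_⟩
        have hx1 : (pv s t x 1)⁻¹ * pv s t x 2 = c := hx.2.1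
        have hx2 : s⁻¹ * pv s t x 1 = (pv s t x 2)⁻¹ * pv s t x 3 := hx.2.2
        rw [p3] at hx2
        have hx3 : pv s t x 2 = pv s t x 1 * c := by rw [← hx1]; group
        calc s⁻¹ * pv s t x 1 * c * (s⁻¹ * pv s t x 1 * c)
            = s⁻¹ * (pv s t x 1 * c) * (s⁻¹ * pv s t x 1) * c := by group
          _ = s⁻¹ * t * c := by rw [hx2, ← hx3]; group
      · intro x hx y hy hxy
        rw [mem_coe, mem_filter] at hx hy
        have hx1 : (pv s t x 1)⁻¹ * pv s t x 2 = c := hx.2.1
        have hy1 : (pv s t y 1)⁻¹ * pv s t y 2 = c := hy.2.1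
        have h1 : pv s t x 1 = pv s t y 1 := mul_left_cancel (mul_right_cancel hxy)
        exact two_eq s t hm h1 (arc_fwd (hx1.trans hy1.symm) h1)
    · have e0 : j = 2 := by omega
      have e1 : j1 = 0 := by omega
      have e2 : j2 = 1 := by omega
      subst e0 e1 e2
      refine le_trans ?_ (Nat.le_add_left _ _)
      apply card_le_card_of_injOn (fun x => s⁻¹ * pv s t x 1)
      · intro x hx
        rw [mem_coe, mem_filter] at hx
        rw [mem_coe, mem_filter]
        refine ⟨mem_univ _, ?_⟩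
        have hx1 : (pv s t x 2)⁻¹ * pv s t x 3 = c := hx.2.1
        have hx2 : s⁻¹ * pv s t x 1 = (pv s t x 1)⁻¹ * pv s t x 2 := hx.2.2
        rw [p3] at hx1
        have hx3 : pv s t x 2 = t * c⁻¹ := by rw [← hx1]; group
        calc s⁻¹ * pv s t x 1 * (s⁻¹ * pv s t x 1)
            = s⁻¹ * pv s t x 1 * ((pv s t x 1)⁻¹ * pv s t x 2) := by rw [← hx2]
          _ = s⁻¹ * t * c⁻¹ := by rw [hx3]; group
      · intro x hx y hy hxy
        rw [mem_coe, mem_filter] at hx hy
        have hx1 : (pv s t x 2)⁻¹ * pv s t x 3 = c := hx.2.1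
        have hy1 : (pv s t y 2)⁻¹ * pv s t y 3 = c := hy.2.1
        have h1 : pv s t x 1 = pv s t y 1 := mul_left_cancel hxy
        refine two_eq s t hm h1 (arc_bwd (hx1.trans hy1.symm) ?_)
        rw [p3, p3]

theorem cT3 (j j1 j2 : ℕ) (hm : 2 ≤ m) (hj : j ≤ m) (h12 : j1 < j2) (h2 : j2 ≤ m) (c : G) :
    ((AV m V).filter fun x => cl s t x j = c ∧ cl s t x j1 = cl s t x j2).card ≤
      V.card ^ (m - 2) * (1 + rt (s⁻¹ * t * c) + rt (s⁻¹ * t * c⁻¹)) := by
  have key : ∀ k : ℕ, k ≤ V.card ^ (m - 2) →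
      k ≤ V.card ^ (m - 2) * (1 + rt (s⁻¹ * t * c) + rt (s⁻¹ * t * c⁻¹)) := by
    intro k h
    refine h.trans ?_
    nth_rewrite 1 [← mul_one (V.card ^ (m - 2))]
    apply Nat.mul_le_mul_left
    omega
  by_cases h0 : j = j1 ∨ j = j2
  · apply key
    refine (card_le_card ?_).trans (cT2 s t V j1 j2 hm (by omega) (by omega) h2 c c)
    intro x hx
    rw [mem_filter] at hx ⊢
    rcases h0 with h | h
    · subst h
      exact ⟨hx.1, hx.2.1, hx.2.2.symm.trans hx.2.1⟩
    · subst h
      exact ⟨hx.1, hx.2.2.trans hx.2.1, hx.2.1⟩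
  · by_cases h3 : 3 ≤ m
    · apply key
      exact cT3a s t V j j1 j2 h3 hj h12 h2 (by tauto) (by tauto) c
    · have hm2 : m = 2 := by omega
      refine (cT3b s t V j j1 j2 hm2 hj h12 h2 (by tauto) (by tauto) c).trans ?_
      have : V.card ^ (m - 2) = 1 := by rw [hm2]; simp
      rw [this, one_mul]
      omega

/-- master union bound -/
theorem ubE (E : (Fin m → G) → Prop) [DecidablePred E] (b1 b2 b3 : ℕ) (hm : m ≤ 4)
    (h1 : ∀ q q', 1 ≤ q → q < q' → q' ≤ m →
      ((AV m V).filter fun x => E x ∧ pv s t x q = pv s t x q').card ≤ b1)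
    (h2 : ∀ j, j ≤ m → ((AV m V).filter fun x => E x ∧ cl s t x j ∉ C).card ≤ b2)
    (h3 : ∀ j1 j2, j1 < j2 → j2 ≤ m →
      ((AV m V).filter fun x => E x ∧ cl s t x j1 = cl s t x j2).card ≤ b3) :
    ((AV m V).filter E).card ≤ ((PF m s t V C).filter E).card +
      (16 * b1 + 5 * b2 + 25 * b3) := by
  classical
  have hsub : (AV m V).filter E ⊆ (PF m s t V C).filter E ∪
      (((AV m V).filter fun x => ∃ p ∈ ((Icc 1 m) ×ˢ (Icc 1 m)).filter
        (fun p : ℕ × ℕ => p.1 < p.2), E x ∧ pv s t x p.1 = pv s t x p.2) ∪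
      (((AV m V).filter fun x => ∃ j ∈ range (m + 1), E x ∧ cl s t x j ∉ C) ∪
      ((AV m V).filter fun x => ∃ p ∈ ((range (m + 1)) ×ˢ (range (m + 1))).filter
        (fun p : ℕ × ℕ => p.1 < p.2), E x ∧ cl s t x p.1 = cl s t x p.2))) := by
    intro x hx
    rw [mem_filter] at hx
    simp only [mem_union, mem_filter, mem_product, mem_Icc, mem_range]
    by_cases hA : ∃ q q', 1 ≤ q ∧ q < q' ∧ q' ≤ m ∧ pv s t x q = pv s t x q'
    · obtain ⟨q, q', ha, hb, hc, hd⟩ := hA
      exact Or.inr (Or.inl ⟨hx.1, (q, q'), by simp only; omega, hx.2, hd⟩)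
    by_cases hB : ∃ j, j ≤ m ∧ cl s t x j ∉ C
    · obtain ⟨j, ha, hb⟩ := hB
      exact Or.inr (Or.inr (Or.inl ⟨hx.1, j, by omega, hx.2, hb⟩))
    by_cases hD : ∃ j1 j2, j1 < j2 ∧ j2 ≤ m ∧ cl s t x j1 = cl s t x j2
    · obtain ⟨j1, j2, ha, hb, hc⟩ := hD
      exact Or.inr (Or.inr (Or.inr ⟨hx.1, (j1, j2), by simp only; omega, hx.2, hc⟩))
    · left
      refine ⟨?_, hx.2⟩
      rw [PF, mem_filter]
      refine ⟨mem_univ _, ?_, (mem_AV V x).1 hx.1, ?_, ?_⟩
      · intro a b hab
        by_contra hne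
        have hne' : a.1 ≠ b.1 := fun h => hne (Fin.ext h)
        rcases Nat.lt_or_gt_of_ne hne' with h | h
        · exact hA ⟨a.1 + 1, b.1 + 1, by omega, by omega, b.2, by rw [pv_fin, pv_fin, hab]⟩
        · exact hA ⟨b.1 + 1, a.1 + 1, by omega, by omega, a.2, by rw [pv_fin, pv_fin, hab]⟩
      · rw [nodup_pcols]
        intro j j' hjj hj' he
        exact hD ⟨j, j', hjj, hj', he⟩
      · intro c hc
        obtain ⟨j, hj, hjc⟩ := (mem_pcols s t x c).1 hc
        by_contra hcC
        exact hB ⟨j, hj, by rw [hjc]; exact hcC⟩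
  refine (card_le_card hsub).trans ((card_union_le _ _).trans (Nat.add_le_add_left ?_ _))
  have k1 := ub2 (((Icc 1 m) ×ˢ (Icc 1 m)).filter (fun p : ℕ × ℕ => p.1 < p.2)) (AV m V)
    (fun x => ∃ p ∈ ((Icc 1 m) ×ˢ (Icc 1 m)).filter
        (fun p : ℕ × ℕ => p.1 < p.2), E x ∧ pv s t x p.1 = pv s t x p.2)
    (fun p x => E x ∧ pv s t x p.1 = pv s t x p.2) b1 (fun x _ h => h) (by
      rintro ⟨a, b⟩ hp
      rw [mem_filter, mem_product, mem_Icc, mem_Icc] at hp
      exact h1 a b hp.1.1.1 hp.2 hp.1.2.2)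
  have k2 := ub1 (range (m + 1)) (AV m V) (fun x => ∃ j ∈ range (m + 1), E x ∧ cl s t x j ∉ C)
    (fun j x => E x ∧ cl s t x j ∉ C) b2 (fun x _ h => h) (by
      intro j hj
      rw [mem_range] at hj
      exact h2 j (by omega))
  have k3 := ub2 (((range (m + 1)) ×ˢ (range (m + 1))).filter (fun p : ℕ × ℕ => p.1 < p.2))
    (AV m V)
    (fun x => ∃ p ∈ ((range (m + 1)) ×ˢ (range (m + 1))).filter
        (fun p : ℕ × ℕ => p.1 < p.2), E x ∧ cl s t x p.1 = cl s t x p.2)
    (fun p x => E x ∧ cl s t x p.1 = cl s t x p.2) b3 (fun x _ h => h) (by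
      rintro ⟨a, b⟩ hp
      rw [mem_filter, mem_product, mem_range, mem_range] at hp
      simp only at hp
      exact h3 a b hp.2 (by omega))
  have c1' : (((Icc 1 m) ×ˢ (Icc 1 m)).filter (fun p : ℕ × ℕ => p.1 < p.2)).card ≤ 16 := by
    refine (card_filter_le _ _).trans ?_
    rw [card_product]
    calc (Icc 1 m).card * (Icc 1 m).card ≤ 4 * 4 :=
          Nat.mul_le_mul (card_Icc_le hm) (card_Icc_le hm)
      _ = 16 := rfl
  have c3' : (((range (m + 1)) ×ˢ (range (m + 1))).filter (fun p : ℕ × ℕ => p.1 < p.2)).card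
      ≤ 25 := by
    refine (card_filter_le _ _).trans ?_
    rw [card_product]
    calc (range (m + 1)).card * (range (m + 1)).card ≤ 5 * 5 :=
          Nat.mul_le_mul (card_range_le5 hm) (card_range_le5 hm)
      _ = 25 := rfl
  have k1' := k1.trans (Nat.mul_le_mul_right b1 c1')
  have k2' := k2.trans (Nat.mul_le_mul_right b2 (card_range_le5 hm))
  have k3' := k3.trans (Nat.mul_le_mul_right b3 c3')
  refine (card_union_le _ _).trans ?_
  have := card_union_le ((AV m V).filter fun x => ∃ j ∈ range (m + 1), E x ∧ cl s t x j ∉ C)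
      ((AV m V).filter fun x => ∃ p ∈ ((range (m + 1)) ×ˢ (range (m + 1))).filter
        (fun p : ℕ × ℕ => p.1 < p.2), E x ∧ cl s t x p.1 = cl s t x p.2)
  omega

/-- union bound over bad colours -/
theorem ubC (E : (Fin m → G) → Prop) [DecidablePred E] (j b : ℕ)
    (h : ∀ d, ((AV m V).filter fun x => E x ∧ cl s t x j = d).card ≤ b) :
    ((AV m V).filter fun x => E x ∧ cl s t x j ∉ C).card ≤ (univ \ C).card * b := by
  have hsub : ((AV m V).filter fun x => E x ∧ cl s t x j ∉ C) ⊆
      (univ \ C).biUnion fun d => (AV m V).filter fun x => E x ∧ cl s t x j = d := by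
    intro x hx
    rw [mem_filter] at hx
    rw [mem_biUnion]
    refine ⟨cl s t x j, by rw [mem_sdiff]; exact ⟨mem_univ _, hx.2.2⟩, ?_⟩
    rw [mem_filter]
    exact ⟨hx.1, hx.2.1, rfl⟩
  refine (card_le_card hsub).trans (card_biUnion_le.trans ?_)
  refine (sum_le_card_nsmul _ _ b (fun d _ => h d)).trans ?_
  rw [smul_eq_mul]

theorem deg1 (hm2 : 2 ≤ m) (hm : m ≤ 4) :
    V.card ^ m ≤ (PF m s t V C).card + (41 + 5 * (univ \ C).card) * V.card ^ (m - 1) := by
  have h := ubE s t V C (fun _ => True) (V.card ^ (m - 1)) ((univ \ C).card * V.card ^ (m - 1))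
    (V.card ^ (m - 1)) hm ?_ ?_ ?_
  · have e1 : ((AV m V).filter fun _ => True) = AV m V := filter_true_of_mem fun _ _ => trivial
    have e2 : ((PF m s t V C).filter fun _ => True) = PF m s t V C :=
      filter_true_of_mem fun _ _ => trivial
    rw [e1, e2, card_AV] at h
    refine h.trans (le_of_eq ?_)
    ring
  · intro q q' ha hb hc
    refine (card_le_card ?_).trans (q1 s t V q q' ha hb hc)
    intro x hx
    rw [mem_filter] at hx ⊢
    exact ⟨hx.1, hx.2.2⟩
  · intro j hj
    apply ubC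
    intro d
    refine (card_le_card ?_).trans (c1 s t V j (by omega) hj d)
    intro x hx
    rw [mem_filter] at hx ⊢
    exact ⟨hx.1, hx.2.2⟩
  · intro j1 j2 ha hb
    refine (card_le_card ?_).trans (e1 s t V j1 j2 hm2 ha hb)
    intro x hx
    rw [mem_filter] at hx ⊢
    exact ⟨hx.1, hx.2.2⟩

/-- exact counts -/
theorem card_box (f : Fin m → Finset G) (B : Finset (Fin m))
    (h1 : ∀ i ∈ B, (f i).card = 1) (h2 : ∀ i, i ∉ B → (f i).card = V.card) :
    (Fintype.piFinset f).card = V.card ^ (m - B.card) := by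
  rw [Fintype.card_piFinset]
  rw [← prod_subset (subset_univ (univ \ B)) (by
    intro i _ hi
    apply h1
    by_contra hB
    exact hi (by rw [mem_sdiff]; exact ⟨mem_univ _, hB⟩))]
  rw [prod_congr rfl (fun i hi => h2 i (by rw [mem_sdiff] at hi; exact hi.2)), prod_const,
    card_sdiff_of_subset (subset_univ B), card_univ, Fintype.card_fin]

theorem exact1 (a : ℕ) (ha : 1 ≤ a) (ham : a ≤ m) (v : G) (hv : v ∈ V) :
    ((AV m V).filter fun x => pv s t x a = v).card = V.card ^ (m - 1) := by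
  have e : ((AV m V).filter fun x => pv s t x a = v) =
      Fintype.piFinset fun i => if i = (⟨a - 1, by omega⟩ : Fin m) then {v} else V := by
    ext x
    rw [mem_filter, mem_AV, Fintype.mem_piFinset]
    have hp : pv s t x a = x ⟨a - 1, by omega⟩ := by
      have := pv_succ s t x (a - 1) (by omega)
      rwa [Nat.sub_add_cancel ha] at this
    rw [hp]
    constructor
    · rintro ⟨h, h2⟩ i
      split_ifs with hi
      · rw [hi, mem_singleton]; exact h2
      · exact h i
    · intro h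
      refine ⟨fun i => ?_, ?_⟩
      · have := h i
        split_ifs at this with hi
        · rw [mem_singleton] at this; rw [this]; exact hv
        · exact this
      · have := h ⟨a - 1, by omega⟩
        rw [if_pos rfl, mem_singleton] at this
        exact this
  rw [e, card_box V _ {(⟨a - 1, by omega⟩ : Fin m)}]
  · simp
  · intro i hi
    rw [mem_singleton] at hi
    rw [if_pos hi]; simp
  · intro i hi
    rw [mem_singleton] at hi
    rw [if_neg hi]

theorem exact2 (a b : ℕ) (ha : 1 ≤ a) (ham : a ≤ m) (hb : 1 ≤ b) (hbm : b ≤ m) (hab : a ≠ b)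
    (u w : G) (hu : u ∈ V) (hw : w ∈ V) :
    ((AV m V).filter fun x => pv s t x a = u ∧ pv s t x b = w).card = V.card ^ (m - 2) := by
  have hne : (⟨b - 1, by omega⟩ : Fin m) ≠ ⟨a - 1, by omega⟩ := by
    simp only [ne_eq, Fin.mk.injEq]; omega
  have e : ((AV m V).filter fun x => pv s t x a = u ∧ pv s t x b = w) =
      Fintype.piFinset fun i => if i = (⟨a - 1, by omega⟩ : Fin m) then {u} else
        if i = (⟨b - 1, by omega⟩ : Fin m) then {w} else V := by
    ext x
    rw [mem_filter, mem_AV, Fintype.mem_piFinset]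
    have hp : pv s t x a = x ⟨a - 1, by omega⟩ := by
      have := pv_succ s t x (a - 1) (by omega)
      rwa [Nat.sub_add_cancel ha] at this
    have hp2 : pv s t x b = x ⟨b - 1, by omega⟩ := by
      have := pv_succ s t x (b - 1) (by omega)
      rwa [Nat.sub_add_cancel hb] at this
    rw [hp, hp2]
    constructor
    · rintro ⟨h, h2, h3⟩ i
      split_ifs with hi hi2
      · rw [hi, mem_singleton]; exact h2
      · rw [hi2, mem_singleton]; exact h3
      · exact h i
    · intro h
      refine ⟨fun i => ?_, ?_, ?_⟩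
      · have := h i
        split_ifs at this with hi hi2
        · rw [mem_singleton] at this; rw [this]; exact hu
        · rw [mem_singleton] at this; rw [this]; exact hw
        · exact this
      · have := h ⟨a - 1, by omega⟩
        rw [if_pos rfl, mem_singleton] at this
        exact this
      · have := h ⟨b - 1, by omega⟩
        rw [if_neg hne, if_pos rfl, mem_singleton] at this
        exact this
  rw [e, card_box V _ {(⟨a - 1, by omega⟩ : Fin m), ⟨b - 1, by omega⟩}]
  · rw [card_pair hne.symm]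
  · intro i hi
    rw [mem_insert, mem_singleton] at hi
    by_cases h : i = (⟨a - 1, by omega⟩ : Fin m)
    · rw [if_pos h]; simp
    · rw [if_neg h]
      rw [if_pos (hi.resolve_left h)]; simp
  · intro i hi
    rw [mem_insert, mem_singleton, not_or] at hi
    rw [if_neg hi.1, if_neg hi.2]

/-- bad part for a vertex -/
theorem degv (a : ℕ) (hm2 : 2 ≤ m) (hm : m ≤ 4) (ha : 1 ≤ a) (ham : a ≤ m) (v : G)
    (hv : v ∈ V) :
    V.card ^ (m - 1) ≤ ((PF m s t V C).filter fun x => pv s t x a = v).card +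
      (V.card ^ (m - 2) * (41 + 5 * (univ \ C).card +
        25 * (rt (s⁻¹ * v) + rt (t * v⁻¹))) +
      5 * V.card ^ (m - 1) * ((if s⁻¹ * v ∉ C then 1 else 0) +
        (if v⁻¹ * t ∉ C then 1 else 0))) := by
  have h := ubE s t V C (fun x => pv s t x a = v) (V.card ^ (m - 2))
    ((univ \ C).card * V.card ^ (m - 2) + V.card ^ (m - 1) *
      ((if s⁻¹ * v ∉ C then 1 else 0) + (if v⁻¹ * t ∉ C then 1 else 0)))
    (V.card ^ (m - 2) * (1 + rt (s⁻¹ * v) + rt (t * v⁻¹))) hm ?_ ?_ ?_
  · rw [exact1 s t V a ha ham v hv] at h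
    refine h.trans (le_of_eq ?_)
    ring
  · intro q q' h1 h2 h3
    exact vT1 s t V a q q' ha ham h1 h2 h3 v
  · intro j hj
    by_cases hA : j = 0 ∧ a = 1
    · obtain ⟨rfl, rfl⟩ := hA
      by_cases hC : s⁻¹ * v ∉ C
      · refine le_trans ?_ (Nat.le_add_left _ _)
        refine le_trans ?_ (Nat.le_mul_of_pos_right _ (by rw [if_pos hC]; omega))
        refine (card_le_card ?_).trans (v1 s t V 1 ha ham v)
        intro x hx
        rw [mem_filter] at hx ⊢
        exact ⟨hx.1, hx.2.1⟩
      · have : ((AV m V).filter fun x => pv s t x 1 = v ∧ cl s t x 0 ∉ C) = ∅ := by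
          apply filter_eq_empty_iff.2
          rintro x _ ⟨h1, h2⟩
          apply hC
          rw [← h1]; exact h2
        rw [this]; simp
    by_cases hB : j = m ∧ a = m
    · have hAm : ∀ x : Fin m → G, pv s t x (m + 1) = t := pv_last s t
      by_cases hC : v⁻¹ * t ∉ C
      · refine le_trans ?_ (Nat.le_add_left _ _)
        refine le_trans ?_ (Nat.le_mul_of_pos_right _ (by rw [if_pos hC]; omega))
        refine (card_le_card ?_).trans (v1 s t V a ha ham v)
        intro x hx
        rw [mem_filter] at hx ⊢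
        exact ⟨hx.1, hx.2.1⟩
      · have : ((AV m V).filter fun x => pv s t x a = v ∧ cl s t x j ∉ C) = ∅ := by
          apply filter_eq_empty_iff.2
          rintro x _ ⟨h1, h2⟩
          apply hC
          have h3 : cl s t x j = v⁻¹ * t := by
            rw [hB.2] at h1
            rw [hB.1, cl, hAm, h1]
          rw [← h3]; exact h2
        rw [this]; simp
    · refine le_trans ?_ (Nat.le_add_right _ _)
      apply ubC
      intro d
      exact vT2 s t V a j ha ham hj hA hB v d
  · intro j1 j2 h1 h2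
    exact vT3 s t V a j1 j2 hm2 ha ham h1 h2 v

theorem degv_sum (hm2 : 2 ≤ m) (hm : m ≤ 4) (v : G) (hv : v ∈ V) :
    m * V.card ^ (m - 1) ≤ ((PF m s t V C).filter fun x => ∃ j, x j = v).card +
      4 * (V.card ^ (m - 2) * (41 + 5 * (univ \ C).card +
        25 * (rt (s⁻¹ * v) + rt (t * v⁻¹))) +
      5 * V.card ^ (m - 1) * ((if s⁻¹ * v ∉ C then 1 else 0) +
        (if v⁻¹ * t ∉ C then 1 else 0))) := by
  have h1 : ∑ _a ∈ Icc 1 m, V.card ^ (m - 1) ≤ ∑ a ∈ Icc 1 m,
      (((PF m s t V C).filter fun x => pv s t x a = v).card +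
      (V.card ^ (m - 2) * (41 + 5 * (univ \ C).card +
        25 * (rt (s⁻¹ * v) + rt (t * v⁻¹))) +
      5 * V.card ^ (m - 1) * ((if s⁻¹ * v ∉ C then 1 else 0) +
        (if v⁻¹ * t ∉ C then 1 else 0)))) := by
    apply sum_le_sum
    intro a ha
    rw [mem_Icc] at ha
    exact degv s t V C a hm2 hm ha.1 ha.2 v hv
  rw [sum_const, Nat.card_Icc, smul_eq_mul, Nat.add_sub_cancel, sum_add_distrib, sum_const,
    Nat.card_Icc, smul_eq_mul, Nat.add_sub_cancel] at h1
  refine h1.trans (Nat.add_le_add ?_ (Nat.mul_le_mul_right _ hm))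
  rw [← card_biUnion]
  · apply card_le_card
    intro x hx
    rw [mem_biUnion] at hx
    obtain ⟨a, ha, hx⟩ := hx
    rw [mem_filter] at hx ⊢
    rw [mem_Icc] at ha
    refine ⟨hx.1, ⟨a - 1, by omega⟩, ?_⟩
    rw [← pv_succ s t x (a - 1) (by omega), Nat.sub_add_cancel ha.1]
    exact hx.2
  · intro a ha b hb hab
    rw [mem_coe, mem_Icc] at ha hb
    rw [Function.onFun, disjoint_left]
    intro x hx hx2
    rw [mem_filter] at hx hx2
    rw [PF, mem_filter] at hx
    have h3 : x ⟨a - 1, by omega⟩ = x ⟨b - 1, by omega⟩ := by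
      rw [← pv_succ s t x (a - 1) (by omega), ← pv_succ s t x (b - 1) (by omega),
        Nat.sub_add_cancel ha.1, Nat.sub_add_cancel hb.1, hx.2, hx2.2]
    have h4 := hx.1.2.1 h3
    rw [Fin.mk.injEq] at h4
    omega

theorem degv_up (hm : m ≤ 4) (v : G) :
    ((PF m s t V C).filter fun x => ∃ j, x j = v).card ≤ m * V.card ^ (m - 1) := by
  have h := ub1 (Icc 1 m) (PF m s t V C) (fun x => ∃ j, x j = v)
    (fun a x => pv s t x a = v) (V.card ^ (m - 1)) (fun x _ h => exists_pos s t x v h) (by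
      intro a ha
      rw [mem_Icc] at ha
      exact (card_le_card (filter_subset_filter _ (PF_sub s t V C))).trans
        (v1 s t V a ha.1 ha.2 v))
  rwa [Nat.card_Icc, Nat.add_sub_cancel] at h

/-- bad part for a colour -/
theorem degc (j : ℕ) (hm2 : 2 ≤ m) (hm : m ≤ 4) (hj : j ≤ m) (c : G) (hc : c ∈ C)
    (hc1 : c ≠ 1) :
    ((AV m V).filter fun x => cl s t x j = c).card ≤
      ((PF m s t V C).filter fun x => cl s t x j = c).card +
      V.card ^ (m - 2) * (41 + 5 * (univ \ C).card +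
        25 * (rt (s⁻¹ * t * c) + rt (s⁻¹ * t * c⁻¹))) := by
  have h := ubE s t V C (fun x => cl s t x j = c) (V.card ^ (m - 2))
    ((univ \ C).card * V.card ^ (m - 2))
    (V.card ^ (m - 2) * (1 + rt (s⁻¹ * t * c) + rt (s⁻¹ * t * c⁻¹))) hm ?_ ?_ ?_
  · refine h.trans (le_of_eq ?_)
    ring
  · intro q q' h1 h2 h3
    exact cT1 s t V j q q' hj h1 h2 h3 c hc1
  · intro j' hj'
    by_cases hjj : j = j'
    · subst hjj
      have : ((AV m V).filter fun x => cl s t x j = c ∧ cl s t x j ∉ C) = ∅ := by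
        apply filter_eq_empty_iff.2
        rintro x _ ⟨h1, h2⟩
        apply h2
        rw [h1]; exact hc
      rw [this]; simp
    · apply ubC
      intro d
      exact cT2 s t V j j' hm2 hjj hj hj' c d
  · intro j1 j2 h1 h2
    exact cT3 s t V j j1 j2 hm2 hj h1 h2 c

/-- main term for a colour at an inner arc -/
theorem exact_mid (j : ℕ) (hj1 : 1 ≤ j) (hj : j < m) (c : G) :
    ((AV m V).filter fun x => cl s t x j = c).card =
      (V.filter fun y => y * c ∈ V).card * V.card ^ (m - 2) := by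
  have e : ((AV m V).filter fun x => cl s t x j = c) =
      (V.filter fun y => y * c ∈ V).biUnion fun y =>
        (AV m V).filter fun x => pv s t x j = y ∧ pv s t x (j + 1) = y * c := by
    ext x
    rw [mem_biUnion, mem_filter]
    constructor
    · rintro ⟨hx, hx2⟩
      have h1 : pv s t x (j + 1) = pv s t x j * c := by rw [← hx2, cl]; group
      have h2 : ∀ q, 1 ≤ q → q ≤ m → pv s t x q ∈ V := by
        intro q hq hqm
        have := pv_succ s t x (q - 1) (by omega)
        rw [Nat.sub_add_cancel hq] at this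
        rw [this]
        exact (mem_AV V x).1 hx _
      refine ⟨pv s t x j, ?_, ?_⟩
      · rw [mem_filter]
        exact ⟨h2 j hj1 (by omega), by rw [← h1]; exact h2 (j + 1) (by omega) hj⟩
      · rw [mem_filter]; exact ⟨hx, rfl, h1⟩
    · rintro ⟨y, _, hx⟩
      rw [mem_filter] at hx
      refine ⟨hx.1, ?_⟩
      rw [cl, hx.2.1, hx.2.2]; group
  rw [e, card_biUnion]
  · rw [sum_congr rfl (g := fun _ => V.card ^ (m - 2)), sum_const, smul_eq_mul]
    intro y hy
    rw [mem_filter] at hy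
    exact exact2 s t V j (j + 1) hj1 (by omega) (by omega) (by omega) (by omega) y (y * c)
      hy.1 hy.2
  · intro y _ y' _ hyy
    rw [Function.onFun, disjoint_left]
    intro x hx hx2
    rw [mem_filter] at hx hx2
    exact hyy (hx.2.1.symm.trans hx2.2.1)

theorem exact_first (hm1 : 1 ≤ m) (c : G) :
    ((AV m V).filter fun x => cl s t x 0 = c).card =
      V.card ^ (m - 1) * (if s * c ∈ V then 1 else 0) := by
  have e : ((AV m V).filter fun x => cl s t x 0 = c) =
      ((AV m V).filter fun x => pv s t x 1 = s * c) := by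
    apply filter_congr
    intro x _
    show s⁻¹ * pv s t x 1 = c ↔ _
    rw [inv_mul_eq_iff_eq_mul]
  rw [e]
  split_ifs with h
  · rw [mul_one]; exact exact1 s t V 1 le_rfl hm1 _ h
  · rw [mul_zero, card_eq_zero, filter_eq_empty_iff]
    intro x hx hx2
    apply h
    rw [← hx2, pv_succ s t x 0 (by omega)]
    exact (mem_AV V x).1 hx _

theorem exact_last (hm1 : 1 ≤ m) (c : G) :
    ((AV m V).filter fun x => cl s t x m = c).card =
      V.card ^ (m - 1) * (if t * c⁻¹ ∈ V then 1 else 0) := by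
  have e : ((AV m V).filter fun x => cl s t x m = c) =
      ((AV m V).filter fun x => pv s t x m = t * c⁻¹) := by
    apply filter_congr
    intro x _
    rw [cl, pv_last]
    constructor
    · intro h; rw [← h]; group
    · intro h; rw [h]; group
  rw [e]
  split_ifs with h
  · rw [mul_one]; exact exact1 s t V m hm1 le_rfl _ h
  · rw [mul_zero, card_eq_zero, filter_eq_empty_iff]
    intro x hx hx2
    apply h
    have h3 := pv_succ s t x (m - 1) (by omega)
    rw [Nat.sub_add_cancel hm1] at h3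
    rw [← hx2, h3]
    exact (mem_AV V x).1 hx _

/-- the main term -/
def MC (m : ℕ) (s t : G) (V : Finset G) (c : G) : ℕ :=
  V.card ^ (m - 1) * ((if s * c ∈ V then 1 else 0) + (if t * c⁻¹ ∈ V then 1 else 0)) +
    (m - 1) * ((V.filter fun y => y * c ∈ V).card * V.card ^ (m - 2))

theorem sum_main (hm1 : 1 ≤ m) (c : G) :
    ∑ j ∈ range (m + 1), ((AV m V).filter fun x => cl s t x j = c).card = MC m s t V c := by
  obtain ⟨k, rfl⟩ : ∃ k, m = k + 1 := ⟨m - 1, by omega⟩
  rw [sum_range_succ, sum_range_succ', exact_last s t V hm1, exact_first s t V hm1]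
  rw [sum_congr rfl (g := fun _ => (V.filter fun y => y * c ∈ V).card *
    V.card ^ (k + 1 - 2)) (by
      intro j hj
      rw [mem_range] at hj
      exact exact_mid s t V (j + 1) (by omega) (by omega) c)]
  rw [sum_const, card_range, smul_eq_mul, MC, Nat.add_sub_cancel]
  ring

theorem degc_sum (hm2 : 2 ≤ m) (hm : m ≤ 4) (c : G) (hc : c ∈ C) (hc1 : c ≠ 1) :
    MC m s t V c ≤ ((PF m s t V C).filter fun x => c ∈ pcols s (List.ofFn x) t).card +
      5 * (V.card ^ (m - 2) * (41 + 5 * (univ \ C).card +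
        25 * (rt (s⁻¹ * t * c) + rt (s⁻¹ * t * c⁻¹)))) := by
  rw [← sum_main s t V (by omega) c]
  have h1 : ∑ j ∈ range (m + 1), ((AV m V).filter fun x => cl s t x j = c).card ≤
      ∑ j ∈ range (m + 1), (((PF m s t V C).filter fun x => cl s t x j = c).card +
      V.card ^ (m - 2) * (41 + 5 * (univ \ C).card +
        25 * (rt (s⁻¹ * t * c) + rt (s⁻¹ * t * c⁻¹)))) := by
    apply sum_le_sum
    intro j hj
    rw [mem_range] at hj
    exact degc s t V C j hm2 hm (by omega) c hc hc1
  refine h1.trans ?_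
  rw [sum_add_distrib, sum_const, smul_eq_mul]
  refine Nat.add_le_add ?_ (Nat.mul_le_mul_right _ (card_range_le5 hm))
  rw [← card_biUnion]
  · apply card_le_card
    intro x hx
    rw [mem_biUnion] at hx
    obtain ⟨a, ha, hx⟩ := hx
    rw [mem_filter] at hx ⊢
    rw [mem_range] at ha
    exact ⟨hx.1, (mem_pcols s t x c).2 ⟨a, by omega, hx.2⟩⟩
  · intro a ha b hb hab
    rw [mem_coe, mem_range] at ha hb
    rw [Function.onFun, disjoint_left]
    intro x hx hx2
    rw [mem_filter] at hx hx2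
    rw [PF, mem_filter] at hx
    have hnd := (nodup_pcols s t x).1 hx.1.2.2.2.1
    rcases Nat.lt_or_gt_of_ne hab with h | h
    · exact hnd a b h (by omega) (hx.2.trans hx2.2.symm)
    · exact hnd b a h (by omega) (hx2.2.trans hx.2.symm)

theorem degc_up (hm1 : 1 ≤ m) (c : G) :
    ((PF m s t V C).filter fun x => c ∈ pcols s (List.ofFn x) t).card ≤ MC m s t V c := by
  rw [← sum_main s t V hm1 c]
  have hsub : ((PF m s t V C).filter fun x => c ∈ pcols s (List.ofFn x) t) ⊆
      (range (m + 1)).biUnion fun j => (AV m V).filter fun x => cl s t x j = c := by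
    intro x hx
    rw [mem_filter] at hx
    obtain ⟨j, hj, hjc⟩ := (mem_pcols s t x c).1 hx.2
    rw [mem_biUnion]
    exact ⟨j, by rw [mem_range]; omega, mem_filter.2 ⟨PF_sub s t V C hx.1, hjc⟩⟩
  exact (card_le_card hsub).trans card_biUnion_le

end per

end Pool.OM.helper98
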