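import Pool.Agent.Work.MP_8d2cba_co_h18.Interface

/-! MP_8d2cba_co, blocks COD and DEG: positions on a path and counting lemmas (helper98). -/

set_option autoImplicit false
set_option linter.unusedSectionVars false

namespace Pool.OM.helper98

open Finset Pool.OM

section pv
variable {G : Type} [Group G] {m : ℕ}

/-- vertex number `j` of the path `s, x 0, ..., x (m-1), t` -/
def pv (s t : G) (x : Fin m → G) : ℕ → G
  | 0 => s
  | j + 1 => if h : j < m then x ⟨j, h⟩ else t

/-- colour number `j` -/
def cl (s t : G) (x : Fin m → G) (j : ℕ) : G := (pv s t x j)⁻¹ * pv s t x (j + 1)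

theorem pv_succ (s t : G) (x : Fin m → G) (j : ℕ) (h : j < m) :
    pv s t x (j + 1) = x ⟨j, h⟩ := by simp [pv, h]

theorem pv_fin (s t : G) (x : Fin m → G) (j : Fin m) : pv s t x (j.1 + 1) = x j := by
  simp [pv]

theorem pv_last (s t : G) (x : Fin m → G) : pv s t x (m + 1) = t := by simp [pv]

theorem pcols_eq : ∀ {m : ℕ} (s t : G) (x : Fin m → G),
    pcols s (List.ofFn x) t = (Multiset.range (m + 1)).map (cl s t x) := by
  intro m
  induction m with
  | zero =>
    intro s t x
    simp [pcols, cl, pv, Multiset.range_succ]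
  | succ m ih =>
    intro s t x
    rw [List.ofFn_succ, pcols, ih]
    have h1 : (Multiset.range (m + 1 + 1)) = 0 ::ₘ (Multiset.range (m + 1)).map Nat.succ := by
      rw [Multiset.range, Multiset.range, List.range_succ_eq_map, Multiset.map_coe,
        Multiset.cons_coe]
    rw [h1, Multiset.map_cons, Multiset.map_map]
    congr 1
    apply Multiset.map_congr rfl
    intro j hj
    have hj' : j < m + 1 := Multiset.mem_range.1 hj
    simp only [Function.comp, cl]
    have h2 : ∀ q, q ≤ m + 1 → pv (x 0) t (fun i : Fin m => x i.succ) q = pv s t x (q + 1) := by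
      intro q hq
      cases q with
      | zero => simp [pv]
      | succ q =>
        by_cases hq' : q < m
        · have : q + 1 < m + 1 := by omega
          simp [pv, hq', this]
        · have : ¬ (q + 1 < m + 1) := by omega
          simp [pv, hq', this]
    rw [h2 j (by omega), h2 (j + 1) (by omega)]

theorem mem_pcols (s t : G) (x : Fin m → G) (c : G) :
    c ∈ pcols s (List.ofFn x) t ↔ ∃ j, j ≤ m ∧ cl s t x j = c := by
  rw [pcols_eq, Multiset.mem_map]
  constructor
  · rintro ⟨j, hj, rfl⟩
    exact ⟨j, Nat.lt_succ_iff.1 (Multiset.mem_range.1 hj), rfl⟩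
  · rintro ⟨j, hj, rfl⟩
    exact ⟨j, Multiset.mem_range.2 (Nat.lt_succ_iff.2 hj), rfl⟩

theorem nodup_pcols (s t : G) (x : Fin m → G) :
    (pcols s (List.ofFn x) t).Nodup ↔
      ∀ j j', j < j' → j' ≤ m → cl s t x j ≠ cl s t x j' := by
  rw [pcols_eq]
  constructor
  · intro h j j' hjj hj' he
    have := Multiset.inj_on_of_nodup_map h j (Multiset.mem_range.2 (by omega)) j'
      (Multiset.mem_range.2 (by omega)) he
    omega
  · intro h
    apply Multiset.Nodup.map_on _ (Multiset.nodup_range _)
    intro j hj j' hj' he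
    have hj1 : j < m + 1 := Multiset.mem_range.1 hj
    have hj2 : j' < m + 1 := Multiset.mem_range.1 hj'
    rcases lt_trichotomy j j' with hlt | heq | hgt
    · exact absurd he (h j j' hlt (by omega))
    · exact heq
    · exact absurd he.symm (h j' j hgt (by omega))

end pv

section cnt
variable {G : Type} [Group G] [DecidableEq G] {m : ℕ}

/-- all tuples in `V` -/
def AV (m : ℕ) (V : Finset G) : Finset (Fin m → G) := Fintype.piFinset fun _ => V

theorem mem_AV (V : Finset G) (x : Fin m → G) : x ∈ AV m V ↔ ∀ j, x j ∈ V := by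
  simp [AV]

theorem card_AV (V : Finset G) : (AV m V).card = V.card ^ m := by
  simp [AV]

/-- counting lemma: coordinates in `B` are determined by the others -/
theorem cntB (V : Finset G) (B : Finset (Fin m)) (S : Finset (Fin m → G))
    (hS : ∀ x ∈ S, ∀ j, x j ∈ V)
    (h : ∀ x ∈ S, ∀ y ∈ S, (∀ j, j ∉ B → x j = y j) → x = y) :
    S.card ≤ V.card ^ (m - B.card) := by
  classical
  have h1 : S.card ≤ (Fintype.piFinset fun _ : {j : Fin m // j ∉ B} => V).card := by
    apply Finset.card_le_card_of_injOn (fun x => fun j : {j : Fin m // j ∉ B} => x j.1)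
    · intro x hx
      simp only [Finset.mem_coe, Fintype.mem_piFinset]
      intro j
      exact hS x hx j.1
    · intro x hx y hy hxy
      apply h x hx y hy
      intro j hj
      exact congrFun hxy ⟨j, hj⟩
  rw [Fintype.card_piFinset, Finset.prod_const, Finset.card_univ] at h1
  have h2 : Fintype.card {j : Fin m // j ∉ B} = m - B.card := by
    rw [Fintype.card_subtype_compl]
    simp
  rwa [h2] at h1

theorem cnt1 (s t : G) (V : Finset G) (S : Finset (Fin m → G)) (hS : S ⊆ AV m V) (u : ℕ)
    (hu : 1 ≤ u) (hum : u ≤ m)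
    (h : ∀ x ∈ S, ∀ y ∈ S, (∀ q, q ≠ u → pv s t x q = pv s t y q) →
      pv s t x u = pv s t y u) : S.card ≤ V.card ^ (m - 1) := by
  have := cntB V {⟨u - 1, by omega⟩} S (fun x hx => (mem_AV V x).1 (hS hx)) ?_
  · simpa using this
  · intro x hx y hy hxy
    have h1 : ∀ q, q ≠ u → pv s t x q = pv s t y q := by
      intro q hq
      cases q with
      | zero => rfl
      | succ q =>
        by_cases hq' : q < m
        · rw [pv_succ _ _ _ _ hq', pv_succ _ _ _ _ hq']
          apply hxy
          simp only [Finset.mem_singleton, Fin.mk.injEq]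
          omega
        · simp [pv, hq']
    have h2 := h x hx y hy h1
    funext j
    rw [← pv_fin s t x j, ← pv_fin s t y j]
    by_cases hj : j.1 + 1 = u
    · rw [hj]; exact h2
    · exact h1 _ hj

theorem cnt2 (s t : G) (V : Finset G) (S : Finset (Fin m → G)) (hS : S ⊆ AV m V) (u w : ℕ)
    (hu : 1 ≤ u) (hum : u ≤ m) (hw : 1 ≤ w) (hwm : w ≤ m) (huw : u ≠ w)
    (h : ∀ x ∈ S, ∀ y ∈ S, (∀ q, q ≠ u → q ≠ w → pv s t x q = pv s t y q) →
      pv s t x u = pv s t y u ∧ pv s t x w = pv s t y w) : S.card ≤ V.card ^ (m - 2) := by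
  have := cntB V {⟨u - 1, by omega⟩, ⟨w - 1, by omega⟩} S
    (fun x hx => (mem_AV V x).1 (hS hx)) ?_
  · have hc : ({⟨u - 1, by omega⟩, ⟨w - 1, by omega⟩} : Finset (Fin m)).card = 2 := by
      apply Finset.card_pair
      simp only [ne_eq, Fin.mk.injEq]
      omega
    rwa [hc] at this
  · intro x hx y hy hxy
    have h1 : ∀ q, q ≠ u → q ≠ w → pv s t x q = pv s t y q := by
      intro q hq hqw
      cases q with
      | zero => rfl
      | succ q =>
        by_cases hq' : q < m
        · rw [pv_succ _ _ _ _ hq', pv_succ _ _ _ _ hq']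
          apply hxy
          simp only [Finset.mem_insert, Finset.mem_singleton, Fin.mk.injEq]
          omega
        · simp [pv, hq']
    have h2 := h x hx y hy h1
    funext j
    rw [← pv_fin s t x j, ← pv_fin s t y j]
    by_cases hj : j.1 + 1 = u
    · rw [hj]; exact h2.1
    · by_cases hj2 : j.1 + 1 = w
      · rw [hj2]; exact h2.2
      · exact h1 _ hj hj2

end cnt

/-! determination lemmas (pure group theory) -/
section det
variable {G : Type} [Group G]

/-- `a⁻¹ b = a'⁻¹ b'` and `a = a'` give `b = b'` -/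
theorem arc_fwd {a b a' b' : G} (h : a⁻¹ * b = a'⁻¹ * b') (ha : a = a') : b = b' := by
  subst ha
  exact mul_left_cancel h

theorem arc_bwd {a b a' b' : G} (h : a⁻¹ * b = a'⁻¹ * b') (hb : b = b') : a = a' := by
  subst hb
  have := mul_right_cancel h
  exact inv_injective this

end det

end Pool.OM.helper98
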